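import Pool.Agent.H83.NT.Pi3A

/-!
Closure properties of computable predicates.
-/

namespace Pool.Agent.H27.LD

open Pool.Agent.H83.NT (computable_bex computable_and computable_not)

variable {α β : Type} [Primcodable α] [Primcodable β]

theorem cp_of_bool {p : α → Prop} (f : α → Bool) (hf : Computable f) (h : ∀ a, p a ↔ f a = true) :
    ComputablePred p := by
  let D : DecidablePred p := fun a => decidable_of_iff _ (h a).symm
  refine ⟨D, hf.of_eq fun a => ?_⟩
  rw [Bool.eq_iff_iff, decide_eq_true_eq]
  exact (h a).symm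

theorem cp_bool {f : α → Bool} (hf : Computable f) : ComputablePred fun a => f a = true :=
  cp_of_bool f hf fun _ => Iff.rfl

theorem cp_exists_bool {p : α → Prop} (hp : ComputablePred p) :
    ∃ f : α → Bool, Computable f ∧ ∀ a, p a ↔ f a = true := by
  obtain ⟨hd, h⟩ := hp
  exact ⟨fun a => decide (p a), h, fun a => (decide_eq_true_iff).symm⟩

theorem cp_decide {p : α → Prop} (hp : ComputablePred p) [∀ a, Decidable (p a)] :
    Computable fun a => decide (p a) := by
  obtain ⟨f, hf, h⟩ := cp_exists_bool hp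
  refine hf.of_eq fun a => ?_
  rw [Bool.eq_iff_iff, decide_eq_true_eq]
  exact (h a).symm

theorem cp_comp {p : β → Prop} (hp : ComputablePred p) {f : α → β} (hf : Computable f) :
    ComputablePred fun a => p (f a) := by
  obtain ⟨g, hg, h⟩ := cp_exists_bool hp
  exact cp_of_bool _ (hg.comp hf) fun a => h (f a)

theorem cp_congr {p q : α → Prop} (hp : ComputablePred p) (h : ∀ a, p a ↔ q a) :
    ComputablePred q := by
  obtain ⟨g, hg, h'⟩ := cp_exists_bool hp
  exact cp_of_bool _ hg fun a => (h a).symm.trans (h' a)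

theorem cp_not {p : α → Prop} (hp : ComputablePred p) : ComputablePred fun a => ¬ p a := by
  obtain ⟨g, hg, h⟩ := cp_exists_bool hp
  refine cp_of_bool _ (computable_not.comp hg) fun a => ?_
  rw [h a]
  cases g a <;> simp

theorem cp_and {p q : α → Prop} (hp : ComputablePred p) (hq : ComputablePred q) :
    ComputablePred fun a => p a ∧ q a := by
  obtain ⟨g, hg, h⟩ := cp_exists_bool hp
  obtain ⟨g', hg', h'⟩ := cp_exists_bool hq
  refine cp_of_bool _ (computable_and.comp hg hg') fun a => ?_
  rw [h a, h' a, Bool.and_eq_true]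

theorem cp_or {p q : α → Prop} (hp : ComputablePred p) (hq : ComputablePred q) :
    ComputablePred fun a => p a ∨ q a := by
  refine cp_congr (cp_not (cp_and (cp_not hp) (cp_not hq))) fun a => ?_
  tauto

theorem cp_imp {p q : α → Prop} (hp : ComputablePred p) (hq : ComputablePred q) :
    ComputablePred fun a => p a → q a := by
  refine cp_congr (cp_or (cp_not hp) hq) fun a => ?_
  tauto

theorem cp_le {f g : α → ℕ} (hf : Computable f) (hg : Computable g) :
    ComputablePred fun a => f a ≤ g a :=
  cp_of_bool _ ((Primrec.nat_le.decide.to_comp).comp hf hg) fun a => by simp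

theorem cp_lt {f g : α → ℕ} (hf : Computable f) (hg : Computable g) :
    ComputablePred fun a => f a < g a :=
  cp_of_bool _ ((Primrec.nat_lt.decide.to_comp).comp hf hg) fun a => by simp

theorem cp_eq {f g : α → ℕ} (hf : Computable f) (hg : Computable g) :
    ComputablePred fun a => f a = g a :=
  cp_of_bool _ (((Primrec.eq (α := ℕ)).decide.to_comp).comp hf hg) fun a => by simp

theorem cp_primrec {p : α → Prop} (hp : PrimrecPred p) : ComputablePred p := by
  classical
  exact cp_of_bool _ hp.decide.to_comp fun a => by simp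

theorem cp_bex {p : α → ℕ → Prop} (hp : ComputablePred fun q : α × ℕ => p q.1 q.2) {N : α → ℕ}
    (hN : Computable N) : ComputablePred fun a => ∃ j < N a, p a j := by
  obtain ⟨g, hg, h⟩ := cp_exists_bool hp
  have hg' : Computable₂ fun (a : α) (j : ℕ) => g (a, j) := hg
  refine cp_of_bool _ (computable_bex hg' hN) fun a => ?_
  rw [decide_eq_true_eq]
  exact exists_congr fun j => and_congr_right fun _ => h (a, j)

theorem cp_ball {p : α → ℕ → Prop} (hp : ComputablePred fun q : α × ℕ => p q.1 q.2) {N : α → ℕ}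
    (hN : Computable N) : ComputablePred fun a => ∀ j < N a, p a j := by
  refine cp_congr (cp_not (cp_bex (p := fun a j => ¬ p a j) (cp_not hp) hN)) fun a => ?_
  push Not
  exact Iff.rfl

theorem cp_ite {p : α → Prop} [∀ a, Decidable (p a)] (hp : ComputablePred p) {f g : α → β}
    (hf : Computable f) (hg : Computable g) : Computable fun a => if p a then f a else g a := by
  obtain ⟨c, hc, h⟩ := cp_exists_bool hp
  refine (Computable.cond hc hf hg).of_eq fun a => ?_
  by_cases h1 : p a
  · rw [if_pos h1, (h a).1 h1, cond_true]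
  · have h2 : c a = false := by
      rw [← Bool.not_eq_true]
      exact fun h3 => h1 ((h a).2 h3)
    rw [if_neg h1, h2, cond_false]

/-- Unbounded search. -/
theorem cp_search {p : α → ℕ → Prop} (hp : ComputablePred fun q : α × ℕ => p q.1 q.2)
    (h : ∀ a, ∃ j, p a j) : ∃ f : α → ℕ, Computable f ∧ ∀ a, p a (f a) := by
  obtain ⟨g, hg, hgp⟩ := cp_exists_bool hp
  have h1 : Partrec fun a : α => Nat.rfind (fun j => Part.some (g (a, j))) := by
    have hg' : Computable₂ fun (a : α) (j : ℕ) => g (a, j) := hg
    exact Partrec.rfind (p := fun a => fun j => Part.some (g (a, j))) hg'.partrec₂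
  have h2 : ∀ a, ∃ j, j ∈ Nat.rfind (fun j => Part.some (g (a, j))) := by
    intro a
    obtain ⟨j, hj⟩ := h a
    rw [hgp (a, j)] at hj
    obtain ⟨k, hk, -⟩ := Nat.rfind_min' (p := fun j => g (a, j)) hj
    exact ⟨k, hk⟩
  choose f hf using h2
  refine ⟨f, h1.of_eq fun a => Part.eq_some_iff.2 (hf a), fun a => ?_⟩
  have h3 := Nat.rfind_spec (hf a)
  rw [Part.mem_some_iff] at h3
  rw [hgp (a, f a)]
  exact h3.symm

/-- Semidecidable predicates. -/
theorem cp_re {p : α → ℕ → Prop} (hp : ComputablePred fun q : α × ℕ => p q.1 q.2) :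
    REPred fun a => ∃ j, p a j := by
  obtain ⟨g, hg, hgp⟩ := cp_exists_bool hp
  have h1 : Partrec fun a : α => Nat.rfind (fun j => Part.some (g (a, j))) := by
    have hg' : Computable₂ fun (a : α) (j : ℕ) => g (a, j) := hg
    exact Partrec.rfind (p := fun a => fun j => Part.some (g (a, j))) hg'.partrec₂
  refine h1.dom_re.of_eq fun a => ?_
  rw [Part.dom_iff_mem]
  constructor
  · rintro ⟨j, hj⟩
    have h3 := Nat.rfind_spec hj
    rw [Part.mem_some_iff] at h3
    exact ⟨j, (hgp (a, j)).2 h3.symm⟩
  · rintro ⟨j, hj⟩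
    obtain ⟨k, hk, -⟩ := Nat.rfind_min' (p := fun j => g (a, j)) ((hgp (a, j)).1 hj)
    exact ⟨k, hk⟩

end Pool.Agent.H27.LD
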