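import Pool.Agent.H71.NT.Near2
import Pool.Agent.H83.NT.Main

/-!
Definitions for the local dichotomy: the stages, the events, exploitation, blocked stages and the
time bounds `tX x` near an honest time bound.
-/

namespace Pool.Agent.H27.LD

open Pool.Agent.Lead.NTM
open Pool.Agent.H71.NT (sN kk dd Good IsTime)
open Pool.Agent.H83.NT (Pl words accv P3)

/-- The first component of a stage. -/
def aa (r : ℕ) : ℕ := r.unpair.1

/-- The second component of a stage. -/
def ss (r : ℕ) : ℕ := r.unpair.2.unpair.1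

/-- The third component of a stage. -/
def uu (r : ℕ) : ℕ := r.unpair.2.unpair.2

/-- The stage with given components. -/
def mk3 (a s u : ℕ) : ℕ := Nat.pair a (Nat.pair s u)

theorem aa_mk3 (a s u : ℕ) : aa (mk3 a s u) = a := by simp [aa, mk3]

theorem ss_mk3 (a s u : ℕ) : ss (mk3 a s u) = s := by simp [ss, mk3]

theorem uu_mk3 (a s u : ℕ) : uu (mk3 a s u) = u := by simp [uu, mk3]

theorem mk3_eq (r : ℕ) : mk3 (aa r) (ss r) (uu r) = r := by simp [aa, ss, uu, mk3]

theorem ss_le (r : ℕ) : ss r ≤ r :=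
  (Nat.unpair_left_le _).trans (Nat.unpair_right_le _)

theorem uu_le (r : ℕ) : uu r ≤ r :=
  (Nat.unpair_right_le _).trans (Nat.unpair_right_le _)

/-- The input of the event machine. -/
def inp (x a s : ℕ) : ℕ := Nat.pair x (Nat.pair a s)

/-- The value of a stage. -/
def val (τ : ℕ → ℕ) (r : ℕ) : ℕ := τ (sN τ r) ^ kk (ss r)

/-- The part of the test at the stage `r` which does not depend on `x`: `k = kk (ss r)` is small
and the machine `dd (ss r)` accepts `1ⁿ`, `n = sN τ r`, within `τ n ^ k` steps. -/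
def WV (C : Pool.Agent.H71.NT.Desc) (τ : ℕ → ℕ) (r : ℕ) : Prop :=
  Good C (kk (ss r)) (sN τ r) ∧ ∃ h : List ℕ, h.length ≤ τ (sN τ r) ^ kk (ss r) ∧
    (dd (ss r)).valid (sN τ r) h = true ∧ (dd (ss r)).acc h = true

/-- The event machine accepts in exactly `uu r` steps. -/
def EV (E : Pool.Agent.H71.NT.Desc) (x r : ℕ) : Prop :=
  ∃ h : List ℕ, h.length = uu r ∧ E.valid (inp x (aa r) (ss r)) h = true ∧ E.acc h = true

/-- The data of the construction. -/
structure Dat where
  /-- the honest time bound -/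
  G : ℕ → ℕ
  /-- the exponents -/
  h : ℕ → ℕ
  /-- the exact running time of the honest machine -/
  τ : ℕ → ℕ
  pG : Polynomial ℕ
  e0 : ℕ
  /-- the honest machine -/
  D : Pool.Agent.H71.NT.Desc
  /-- the machine certifying `e0 * k ≤ h n` -/
  C : Pool.Agent.H71.NT.Desc
  /-- the event machine -/
  E : Pool.Agent.H71.NT.Desc
  /-- the matrix of the `Π⁰₃` set -/
  W : P3
  Gc : Computable G
  Gm : Monotone G
  Gid : ∀ n, n ≤ G n
  τc : Computable τ
  hD : IsTime D τ
  τG : ∀ n, G n ≤ τ n ∧ τ n ≤ pG.eval (G n)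
  he : ∀ x, 2 ≤ x → pG.eval x ≤ x ^ e0
  hc : Computable h
  hm : Monotone h
  hu : ∀ k, ∃ n, k ≤ h n
  h1 : ∀ n, 1 ≤ h n
  hC : ∀ z : ℕ, e0 * z.unpair.1 ≤ h z.unpair.2 ↔ ∃ y : List ℕ, C.valid z y = true ∧ C.acc y = true
  hE : ∀ x a s, (∀ b ≤ s, ∃ c, W.R x a b c = false) ↔
    ∃ y : List ℕ, E.valid (inp x a s) y = true ∧ E.acc y = true
  hEu : ∀ (z : ℕ) (y y' : List ℕ), E.valid z y = true → E.acc y = true → E.valid z y' = true →
    E.acc y' = true → y.length = y'.length
  hEc : ComputablePred fun q : ℕ × ℕ =>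
    ∃ y : List ℕ, y.length = q.2 ∧ E.valid q.1 y = true ∧ E.acc y = true

/-- The requirement `e = (m, i, d)` is exploited at the length `n`: the machine `i` accepts a word
of length `n` over the letters `< m` within `Pl d v` steps but not within `Pl d v'` steps. -/
def exq (e n v v' : ℕ) : Prop :=
  ∃ u ∈ words e.unpair.1 n, accv e.unpair.2.unpair u v = true ∧
    accv e.unpair.2.unpair u v' = false

namespace Dat

variable (Z : Dat)

/-- The test at the stage `r`. -/
def WR (x r : ℕ) : Prop := EV Z.E x r ∧ WV Z.C Z.τ r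

/-- The requirement `e` exploits the stage `r`. -/
def Ex (e r : ℕ) : Prop :=
  ∃ n, sN Z.τ r ≤ n ∧ n < sN Z.τ (r + 1) ∧ exq e n (max (Z.G n) (val Z.τ r)) (Z.G n)

/-- The requirement `e` is active at the stage `r`. -/
def Act (x e r : ℕ) : Prop := Z.WR x r ∧ e < aa r ∧ Z.Ex e r

/-- The stage `r` is blocked by the requirement `e`. -/
def Blk (x e r : ℕ) : Prop := Z.Act x e r ∧ ∀ r' < r, ¬ Z.Act x e r'

/-- The time bound is raised at the stage `r`. -/
def Ra (x r : ℕ) : Prop := Z.WR x r ∧ ∀ e < aa r, ¬ Z.Blk x e r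

open Classical in
/-- The contributions of the stages `< B`. -/
noncomputable def cX (x n B : ℕ) : ℕ :=
  Nat.rec (motive := fun _ => ℕ) 0 (fun r ih => max ih (if sN Z.τ r ≤ n ∧ Z.Ra x r then
    val Z.τ r else 0)) B

/-- The time bounds. -/
noncomputable def tX (x n : ℕ) : ℕ := max (Z.G n) (Z.cX x n (n + 1))

/-- The languages of the negative case. -/
def VX (x a n : ℕ) : Prop := ∃ r, sN Z.τ r = n ∧ aa r = a ∧ Z.WR x r

end Dat

end Pool.Agent.H27.LD
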