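import Pool.Agent.H27.LD.CP
import Pool.Agent.H27.LD.Defs

/-!
Machines with unique acceptance times for recursively enumerable predicates, and the data of the
construction.
-/

namespace Pool.Agent.H27.LD

open Pool.Agent.Lead.NTM Pool.Agent.H71.NT Pool.Agent.H83
open Pool.Agent.H83.NT (P3)

theorem haltsAt_unique {ins : ℕ → Instr} {q x j j' : ℕ} (h : HaltsAt ins q x j)
    (h' : HaltsAt ins q x j') : j = j' := by
  rcases Nat.lt_trichotomy j j' with h1 | h1 | h1
  · exact absurd h.1 (h'.2 j h1)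
  · exact h1
  · exact absurd h'.1 (h.2 j' h1)

theorem exists_uniq_of_re {p : ℕ → Prop} (hp : REPred p) : ∃ M : Machine Unit,
    (∀ z, p z ↔ ∃ s, AcceptsIn M (List.replicate z ()) s) ∧
    ∀ z s s', AcceptsIn M (List.replicate z ()) s → AcceptsIn M (List.replicate z ()) s' →
      s = s' := by
  obtain ⟨ins, N, R, q₀, hq0, hR0, hN, hR, hK⟩ := exists_machine hp
  obtain ⟨k, rfl⟩ : ∃ k, R = k + 1 := ⟨R - 1, by omega⟩
  have : NeZero N := ⟨by omega⟩
  refine ⟨cmach Unit ins k 1 N 0 q₀, fun z => ?_, fun z s s' h h' => ?_⟩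
  · rw [hK]
    constructor
    · intro h
      obtain ⟨j, hj⟩ := exists_haltsAt h
      refine ⟨z + 3 + j, (acceptsIn_cmach _ hN hR hq0 _).2 ⟨?_, j, ?_, ?_⟩⟩
      · exact Nat.mod_one _
      · rwa [List.length_replicate]
      · rw [List.length_replicate]
    · rintro ⟨s, hs⟩
      obtain ⟨-, j, hj, -⟩ := (acceptsIn_cmach _ hN hR hq0 _).1 hs
      rw [List.length_replicate] at hj
      exact ⟨j, hj.1⟩
  · obtain ⟨-, j, hj, h1⟩ := (acceptsIn_cmach _ hN hR hq0 _).1 h
    obtain ⟨-, j', hj', h2⟩ := (acceptsIn_cmach _ hN hR hq0 _).1 h'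
    rw [haltsAt_unique hj hj'] at h1
    rw [h1, h2]

theorem cu1 {α : Type} [Primcodable α] {f : α → ℕ} (hf : Computable f) :
    Computable fun a => (f a).unpair.1 := Computable.fst.comp (Computable.unpair.comp hf)

theorem cu2 {α : Type} [Primcodable α] {f : α → ℕ} (hf : Computable f) :
    Computable fun a => (f a).unpair.2 := Computable.snd.comp (Computable.unpair.comp hf)

/-- Events are recursively enumerable. -/
theorem re_event (W : P3) : REPred fun z : ℕ => ∀ b ≤ z.unpair.2.unpair.2,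
    ∃ c, W.R z.unpair.1 z.unpair.2.unpair.1 b c = false := by
  have hz : Computable fun q : ((ℕ × ℕ) × ℕ) × ℕ => q.1.1.1 :=
    Computable.fst.comp (Computable.fst.comp Computable.fst)
  have h1' := ((cu1 hz).pair (cu1 (cu2 hz))).pair
      ((Computable.snd.comp Computable.fst : Computable fun q : ((ℕ × ℕ) × ℕ) × ℕ => q.1.2).pair
        Computable.snd)
  have h1 := W.comp.comp h1'
  have h2 := cp_not (cp_bool h1)
  have h3 := cp_bex (p := fun (q : (ℕ × ℕ) × ℕ) c =>
      ¬ (W.R q.1.1.unpair.1 q.1.1.unpair.2.unpair.1 q.2 c = true)) h2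
      (Computable.succ.comp (Computable.snd.comp Computable.fst))
  have h4 := cp_ball (p := fun (q : ℕ × ℕ) b => ∃ c < q.2.succ,
      ¬ (W.R q.1.unpair.1 q.1.unpair.2.unpair.1 b c = true)) h3
      (Computable.succ.comp (cu2 (cu2 Computable.fst)))
  refine (cp_re (p := fun (z B : ℕ) => ∀ b < z.unpair.2.unpair.2.succ, ∃ c < B.succ,
      ¬ (W.R z.unpair.1 z.unpair.2.unpair.1 b c = true)) h4).of_eq fun z => ?_
  constructor
  · rintro ⟨B, hB⟩ b hb
    obtain ⟨c, -, hc⟩ := hB b (by omega)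
    exact ⟨c, by simpa using hc⟩
  · intro h
    choose! c hc using h
    refine ⟨(Finset.range (z.unpair.2.unpair.2 + 1)).sup c, fun b hb => ⟨c b, ?_, ?_⟩⟩
    · exact Nat.lt_succ_of_le (Finset.le_sup (f := c) (Finset.mem_range.2 hb))
    · simpa using hc b (by omega)

theorem exists_dat {G h : ℕ → ℕ} (hGc : Computable G) (hGm : Monotone G) (hid : ∀ n, n ≤ G n)
    (hGh : Honest G) (hc : Computable h) (hm : Monotone h) (hu : ∀ k, ∃ n, k ≤ h n)
    (h1 : ∀ n, 1 ≤ h n) (W : P3) : ∃ Z : Dat, Z.G = G ∧ Z.h = h ∧ Z.W = W := by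
  obtain ⟨MG, τ, pG, hMG, hτG⟩ := hGh
  have hτc : Computable τ := computable_time hMG
  have hτid : ∀ n, n ≤ τ n := fun n => (hid n).trans (hτG n).1
  have hD : IsTime (descM MG ()) τ :=
    ⟨fun n s => (acceptsIn_iff_desc MG () n s).symm.trans (hMG n s), hτid⟩
  obtain ⟨e, he⟩ := exists_pow_bound' pG
  have hre : REPred fun z : ℕ => e * z.unpair.1 ≤ h z.unpair.2 := by
    refine ComputablePred.to_re ?_
    exact cp_le (Primrec.nat_mul.to_comp.comp (Computable.const e)
      (Computable.fst.comp Primrec.unpair.to_comp))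
      (hc.comp (Computable.snd.comp Primrec.unpair.to_comp))
  obtain ⟨C, hC⟩ := exists_desc_of_re hre
  obtain ⟨M, hM, hMu⟩ := exists_uniq_of_re (re_event W)
  refine ⟨⟨G, h, τ, pG, e, descM MG (), C, descM M (), W, hGc, hGm, hid, hτc, hD, hτG, he, hc, hm,
    hu, h1, hC, ?_, ?_, ?_⟩, rfl, rfl, rfl⟩
  · intro x a s
    have h2 := hM (inp x a s)
    simp only [acceptsIn_iff_desc] at h2
    unfold inp at h2 ⊢
    simp only [Nat.unpair_pair] at h2
    rw [h2]
    constructor
    · rintro ⟨s, y, -, hy, hy'⟩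
      exact ⟨y, hy, hy'⟩
    · rintro ⟨y, hy, hy'⟩
      exact ⟨_, y, rfl, hy, hy'⟩
  · intro z y y' h2 h3 h4 h5
    exact hMu z _ _ ((acceptsIn_iff_desc M () z _).2 ⟨y, rfl, h2, h3⟩)
      ((acceptsIn_iff_desc M () z _).2 ⟨y', rfl, h4, h5⟩)
  · refine cp_congr (cp_primrec (primrecPred_acceptsIn M ())) fun q => ?_
    rw [acceptsIn_iff_desc]

end Pool.Agent.H27.LD
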