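import Pool.Agent.H27.LD.Ver
import Pool.Agent.H27.LD.Mach

/-!
Computability of the construction.
-/

namespace Pool.Agent.H27.LD

open Pool.Agent.H79.Cx Pool.Agent.Lead.NTM Pool.Agent.H71.NT Pool.Agent.H83
open Pool.Agent.H83.NT (P3 Pl words accv AL AccL accv_iff primrec_words primrec_Pl primrec_accL)

theorem primrec_aa : Primrec aa := Primrec.fst.comp Primrec.unpair

theorem primrec_ss : Primrec ss :=
  Primrec.fst.comp (Primrec.unpair.comp (Primrec.snd.comp Primrec.unpair))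

theorem primrec_uu : Primrec uu :=
  Primrec.snd.comp (Primrec.unpair.comp (Primrec.snd.comp Primrec.unpair))

theorem kk_ss_le (r : ℕ) : kk (ss r) ≤ r := (kk_le _).trans (ss_le r)

/-- The part of the test not depending on `x` is decidable. -/
theorem cp_WV (Z : Dat) : ComputablePred fun r => WV Z.C Z.τ r := by
  obtain ⟨T, hT⟩ := exists_guess_machine (pt_verWB Z.C Z.D)
  obtain ⟨M, hM, hM'⟩ := hT Unit
  obtain ⟨Q, hQ⟩ := exists_certW Z.hD Z.C
  have hs := sN_strictMono Z.hD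
  have hB : Computable fun n : ℕ => T.eval (n + Q.eval (Z.τ n + Z.τ n ^ n)) := by
    refine (primrec_polyEval T).to_comp.comp (Primrec.nat_add.to_comp.comp Computable.id ?_)
    exact (primrec_polyEval Q).to_comp.comp (Primrec.nat_add.to_comp.comp Z.τc
      (primrec_pow.to_comp.comp Z.τc Computable.id))
  have hsc := computable_sN Z.τc
  have h1 := cp_comp (cp_primrec (primrecPred_acceptsWithin M ())) (hsc.pair (hB.comp hsc))
  refine cp_congr h1 fun r => ?_
  have hlen : (List.replicate (sN Z.τ r) ()).length = sN Z.τ r := List.length_replicate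
  constructor
  · rintro ⟨s, -, hs'⟩
    have h2 := (hM (List.replicate (sN Z.τ r) ())).1 ⟨s, hs'⟩
    rw [hlen, exists_verWB_iff Z.hD] at h2
    obtain ⟨r', h3, h4⟩ := h2
    rwa [hs.injective h3] at h4
  · intro hW
    obtain ⟨y, hy, hyl⟩ := hQ r hW
    obtain ⟨s, hs', ha⟩ := hM' (List.replicate (sN Z.τ r) ()) y (by rw [hlen]; exact hy)
    refine ⟨s, hs'.trans ?_, ha⟩
    rw [hlen]
    refine eval_mono T (Nat.add_le_add_left (hyl.trans (eval_mono Q ?_)) _)
    have h2 : 0 < Z.τ (sN Z.τ r) := by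
      have h3 := two_le_sN (τ := Z.τ) r
      have h4 := Z.hD.2 (sN Z.τ r)
      omega
    exact Nat.add_le_add_left (Nat.pow_le_pow_right h2 ((kk_ss_le r).trans (hs.id_le r))) _

theorem primrec_acc : PrimrecPred fun z : ((ℕ × ℕ) × List ℕ) × ℕ =>
    ∃ s ∈ List.range (Pl z.1.1.2 z.2).succ,
      AccL (Denumerable.ofNat Pool.Agent.H83.NT.Desc z.1.1.1) z.1.2 s := by
  have h1 : PrimrecRel fun (s : ℕ) (z : ((ℕ × ℕ) × List ℕ) × ℕ) =>
      AccL (Denumerable.ofNat Pool.Agent.H83.NT.Desc z.1.1.1) z.1.2 s := by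
    have hz : Primrec fun q : ℕ × (((ℕ × ℕ) × List ℕ) × ℕ) =>
        (((Denumerable.ofNat Pool.Agent.H83.NT.Desc q.2.1.1.1, q.2.1.2), q.1) :
          (Pool.Agent.H83.NT.Desc × List ℕ) × ℕ) :=
      (((Primrec.ofNat Pool.Agent.H83.NT.Desc).comp (Primrec.fst.comp (Primrec.fst.comp
        (Primrec.fst.comp Primrec.snd)))).pair (Primrec.snd.comp (Primrec.fst.comp
          Primrec.snd))).pair Primrec.fst
    exact primrec_accL.comp hz
  have h2 : Primrec fun z : ((ℕ × ℕ) × List ℕ) × ℕ => List.range (Pl z.1.1.2 z.2).succ :=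
    Primrec.list_range.comp (Primrec.succ.comp (primrec_Pl.comp (Primrec.snd.comp
      (Primrec.fst.comp Primrec.fst)) Primrec.snd))
  exact h1.exists_mem_list.comp h2 (Primrec.id (α := ((ℕ × ℕ) × List ℕ) × ℕ))

theorem accv_iff' {z : ℕ × ℕ} {u : List ℕ} {v : ℕ} : accv z u v = true ↔
    ∃ s ∈ List.range (Pl z.2 v).succ,
      AccL (Denumerable.ofNat Pool.Agent.H83.NT.Desc z.1) u s := by
  obtain ⟨i, d⟩ := z
  rw [accv_iff]
  simp only [Nat.succ_eq_add_one, List.mem_range, Nat.lt_succ_iff]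

theorem cp_exq : ComputablePred fun q : (ℕ × ℕ) × (ℕ × ℕ) => exq q.1.1 q.1.2 q.2.1 q.2.2 := by
  have hq : Primrec fun p : List ℕ × ((ℕ × ℕ) × (ℕ × ℕ)) => p.2.1.1.unpair.2.unpair :=
    Primrec.unpair.comp (Primrec.snd.comp (Primrec.unpair.comp (Primrec.fst.comp
      (Primrec.fst.comp Primrec.snd))))
  have hv : Primrec fun p : List ℕ × ((ℕ × ℕ) × (ℕ × ℕ)) => p.2.2.1 :=
    Primrec.fst.comp (Primrec.snd.comp Primrec.snd)
  have hv' : Primrec fun p : List ℕ × ((ℕ × ℕ) × (ℕ × ℕ)) => p.2.2.2 :=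
    Primrec.snd.comp (Primrec.snd.comp Primrec.snd)
  have h1 := primrec_acc.comp ((hq.pair Primrec.fst).pair hv)
  have h2 := primrec_acc.comp ((hq.pair Primrec.fst).pair hv')
  have h3 : PrimrecRel fun (u : List ℕ) (q : (ℕ × ℕ) × (ℕ × ℕ)) =>
      (∃ s ∈ List.range (Pl q.1.1.unpair.2.unpair.2 q.2.1).succ,
        AccL (Denumerable.ofNat Pool.Agent.H83.NT.Desc q.1.1.unpair.2.unpair.1) u s) ∧
      ¬ (∃ s ∈ List.range (Pl q.1.1.unpair.2.unpair.2 q.2.2).succ,
        AccL (Denumerable.ofNat Pool.Agent.H83.NT.Desc q.1.1.unpair.2.unpair.1) u s) :=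
    h1.and h2.not
  have h4 := h3.exists_mem_list.comp (primrec_words.comp (Primrec.fst.comp (Primrec.unpair.comp
    (Primrec.fst.comp (Primrec.fst : Primrec fun q : (ℕ × ℕ) × (ℕ × ℕ) => q.1))))
    (Primrec.snd.comp (Primrec.fst : Primrec fun q : (ℕ × ℕ) × (ℕ × ℕ) => q.1)))
    (Primrec.id (α := (ℕ × ℕ) × (ℕ × ℕ)))
  refine cp_congr (cp_primrec h4) fun q => ?_
  unfold exq
  refine exists_congr fun u => and_congr_right fun _ => and_congr ?_ ?_
  · rw [accv_iff']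
    rfl
  · rw [← Bool.not_eq_true, accv_iff']
    rfl

theorem cp_WR (Z : Dat) : ComputablePred fun q : ℕ × ℕ => Z.WR q.1 q.2 := by
  have h1 : Computable fun q : ℕ × ℕ => (inp q.1 (aa q.2) (ss q.2), uu q.2) := by
    have h2 := Primrec₂.natPair.comp (α := ℕ × ℕ) Primrec.fst (Primrec₂.natPair.comp
      (primrec_aa.comp Primrec.snd) (primrec_ss.comp Primrec.snd))
    exact (h2.pair (primrec_uu.comp Primrec.snd)).to_comp
  exact cp_and (cp_comp Z.hEc h1) (cp_comp (cp_WV Z) Computable.snd)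

theorem computable_val (Z : Dat) : Computable (val Z.τ) :=
  primrec_pow.to_comp.comp (Z.τc.comp (computable_sN Z.τc))
    (primrec_kk.to_comp.comp primrec_ss.to_comp)

theorem cp_Ex (Z : Dat) : ComputablePred fun q : ℕ × ℕ => Z.Ex q.1 q.2 := by
  have hsc := computable_sN Z.τc
  have hn : Computable fun q : (ℕ × ℕ) × ℕ => q.2 := Computable.snd
  have he : Computable fun q : (ℕ × ℕ) × ℕ => q.1.1 := Computable.fst.comp Computable.fst
  have hr : Computable fun q : (ℕ × ℕ) × ℕ => q.1.2 := Computable.snd.comp Computable.fst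
  have h1 := cp_comp cp_exq ((he.pair hn).pair ((Primrec.nat_max.to_comp.comp (Z.Gc.comp hn)
    ((computable_val Z).comp hr)).pair (Z.Gc.comp hn)))
  have h2 := cp_and (cp_le (hsc.comp hr) hn) h1
  have h3 := cp_bex (p := fun (q : ℕ × ℕ) n => sN Z.τ q.2 ≤ n ∧
    exq q.1 n (max (Z.G n) (val Z.τ q.2)) (Z.G n)) h2
    (hsc.comp (Computable.succ.comp Computable.snd))
  refine cp_congr h3 fun q => ?_
  unfold Dat.Ex
  constructor
  · rintro ⟨n, h4, h5, h6⟩
    exact ⟨n, h5, h4, h6⟩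
  · rintro ⟨n, h4, h5, h6⟩
    exact ⟨n, h5, h4, h6⟩

theorem cp_Act (Z : Dat) : ComputablePred fun q : (ℕ × ℕ) × ℕ => Z.Act q.1.1 q.1.2 q.2 := by
  have hx : Computable fun q : (ℕ × ℕ) × ℕ => q.1.1 := Computable.fst.comp Computable.fst
  have he : Computable fun q : (ℕ × ℕ) × ℕ => q.1.2 := Computable.snd.comp Computable.fst
  have hr : Computable fun q : (ℕ × ℕ) × ℕ => q.2 := Computable.snd
  exact cp_and (cp_comp (cp_WR Z) (hx.pair hr)) (cp_and (cp_lt he (primrec_aa.to_comp.comp hr))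
    (cp_comp (cp_Ex Z) (he.pair hr)))

theorem cp_Blk (Z : Dat) : ComputablePred fun q : (ℕ × ℕ) × ℕ => Z.Blk q.1.1 q.1.2 q.2 := by
  have hr : Computable fun q : (ℕ × ℕ) × ℕ => q.2 := Computable.snd
  have h1 : ComputablePred fun q : ((ℕ × ℕ) × ℕ) × ℕ => ¬ Z.Act q.1.1.1 q.1.1.2 q.2 :=
    cp_not (cp_comp (cp_Act Z) ((Computable.fst.comp Computable.fst).pair Computable.snd))
  exact cp_and (cp_Act Z) (cp_ball (p := fun (q : (ℕ × ℕ) × ℕ) r' => ¬ Z.Act q.1.1 q.1.2 r')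
    h1 hr)

theorem cp_Ra (Z : Dat) : ComputablePred fun q : ℕ × ℕ => Z.Ra q.1 q.2 := by
  have h1 : ComputablePred fun q : (ℕ × ℕ) × ℕ => ¬ Z.Blk q.1.1 q.2 q.1.2 :=
    cp_not (cp_comp (cp_Blk Z) (((Computable.fst.comp Computable.fst).pair Computable.snd).pair
      (Computable.snd.comp Computable.fst)))
  exact cp_and (cp_WR Z) (cp_ball (p := fun (q : ℕ × ℕ) e => ¬ Z.Blk q.1 e q.2) h1
    (primrec_aa.to_comp.comp Computable.snd))

theorem computable_tX (Z : Dat) : Computable₂ Z.tX := by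
  classical
  have hsc := computable_sN Z.τc
  have hx : Computable fun a : (ℕ × ℕ) × (ℕ × ℕ) => a.1.1 := Computable.fst.comp Computable.fst
  have hn : Computable fun a : (ℕ × ℕ) × (ℕ × ℕ) => a.1.2 := Computable.snd.comp Computable.fst
  have hr : Computable fun a : (ℕ × ℕ) × (ℕ × ℕ) => a.2.1 := Computable.fst.comp Computable.snd
  have hi : Computable fun a : (ℕ × ℕ) × (ℕ × ℕ) => a.2.2 := Computable.snd.comp Computable.snd
  have h1 : ComputablePred fun a : (ℕ × ℕ) × (ℕ × ℕ) => sN Z.τ a.2.1 ≤ a.1.2 ∧ Z.Ra a.1.1 a.2.1 :=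
    cp_and (cp_le (hsc.comp hr) hn) (cp_comp (cp_Ra Z) (hx.pair hr))
  have h2 : Computable₂ fun (q : ℕ × ℕ) (p : ℕ × ℕ) =>
      max p.2 (if sN Z.τ p.1 ≤ q.2 ∧ Z.Ra q.1 p.1 then val Z.τ p.1 else 0) :=
    Primrec.nat_max.to_comp.comp hi (cp_ite h1 ((computable_val Z).comp hr)
      (Computable.const 0))
  have h3 : Computable fun q : ℕ × ℕ => Z.cX q.1 q.2 (q.2 + 1) :=
    Computable.nat_rec (f := fun q : ℕ × ℕ => q.2 + 1) (g := fun _ => 0)
      (Computable.succ.comp Computable.snd) (Computable.const _) h2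
  exact Primrec.nat_max.to_comp.comp (Z.Gc.comp Computable.snd) h3

end Pool.Agent.H27.LD
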