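import Pool.Agent.H27.LD.Stage

/-!
The negative case: `NTIME(Pol (tX x))` is not closed under complementation.
-/

namespace Pool.Agent.H27.LD

open Pool.Agent.H79.Cx Pool.Agent.Lead.NTM Pool.Agent.H71.NT
open Pool.Agent.H83.NT (P3 exists_time_bound)

namespace Dat

variable (Z : Dat)

theorem mem_neg (x a : ℕ) (A : Type) [Finite A] :
    {w : List A | Z.VX x a w.length} ∈ NTIMEPol A (Z.tX x) := by
  classical
  obtain ⟨T, hT⟩ := exists_guess_machine (pt_verXB Z.C Z.D Z.E x a)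
  obtain ⟨M, hM, hM'⟩ := hT A
  obtain ⟨Q, hQ⟩ := exists_certX Z.hD Z.C Z.E x a
  obtain ⟨R, hR⟩ := (Z.finite_blocked x a).bddAbove
  obtain ⟨K, hK⟩ := exists_time_bound M (sN Z.τ (R + 1))
  have hLM : ∀ w : List A, Z.VX x a w.length ↔ Accepts M w := by
    intro w
    rw [hM, exists_verXB_iff Z.hD]
    rfl
  refine ⟨M, T.comp (Polynomial.X + Q.comp (Z.pG.comp Polynomial.X + Polynomial.X)) +
    Polynomial.C K, hLM, fun w hw => ?_⟩
  simp only [Polynomial.eval_comp, Polynomial.eval_add, Polynomial.eval_X, Polynomial.eval_C]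
  obtain ⟨r, hr, ha, hWR⟩ := id hw
  by_cases hRa : Z.Ra x r
  · obtain ⟨y, hy, hyl⟩ := hQ r ha hWR.1 hWR.2
    rw [hr] at hy hyl
    obtain ⟨s, hs', hacc⟩ := hM' w y hy
    refine ⟨s, hs'.trans ?_, hacc⟩
    refine le_trans ?_ (Nat.le_add_right _ _)
    have hG : Z.G w.length ≤ Z.tX x w.length := Z.G_le_tX x _
    have h2 : w.length ≤ Z.tX x w.length := (Z.Gid _).trans hG
    have h3 : Z.τ w.length ^ kk (ss r) ≤ Z.tX x w.length := by
      have h5 := Z.val_le_tX (n := w.length) hr.le hRa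
      unfold val at h5
      rwa [hr] at h5
    have h4 : Z.τ w.length ≤ Z.pG.eval (Z.tX x w.length) :=
      (Z.τG _).2.trans (eval_mono Z.pG hG)
    exact eval_mono T (Nat.add_le_add h2 (hyl.trans (eval_mono Q (Nat.add_le_add h4 h3))))
  · have h1 : r ≤ R := hR ⟨ha, hWR, hRa⟩
    have h2 : sN Z.τ r < sN Z.τ (R + 1) := Z.sN_mono (by omega)
    obtain ⟨s, h3, h4⟩ := hK w (by omega) ((hLM w).1 hw)
    exact ⟨s, by omega, h4⟩

theorem not_mem_neg {x a : ℕ} (ha : ¬ ∃ b, ∀ c, Z.W.R x a b c = true) (A : Type) [Finite A]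
    [Nonempty A] : {w : List A | Z.VX x a w.length}ᶜ ∉ NTIMEPol A (Z.tX x) := by
  classical
  rintro ⟨M, p, hM, hp⟩
  obtain ⟨b⟩ := ‹Nonempty A›
  obtain ⟨k, hk⟩ := exists_pow_bound' p
  obtain ⟨N, hN⟩ := Z.hu (Z.e0 * k)
  obtain ⟨y, hyv, hya⟩ := (Z.hC (Nat.pair k N)).1 (by rw [Nat.unpair_pair]; exact hN)
  obtain ⟨s, hsB, hsk, hsd⟩ := exists_index_desc k (descM M b) (max N y.length)
  have hev : ∀ b ≤ s, ∃ c, Z.W.R x a b c = false := by
    intro b _
    by_contra h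
    push Not at h
    exact ha ⟨b, fun c => by simpa using h c⟩
  obtain ⟨z, hzv, hza⟩ := (Z.hE x a s).1 hev
  set r := mk3 a s z.length with hr
  have hra : aa r = a := aa_mk3 _ _ _
  have hrs : ss r = s := ss_mk3 _ _ _
  have hru : uu r = z.length := uu_mk3 _ _ _
  set n := sN Z.τ r with hn
  have hsr : s ≤ r := hrs ▸ ss_le r
  have hrn : r ≤ n := Z.sN_mono.id_le r
  have hg : Good Z.C (kk (ss r)) n := by
    rw [hrs, hsk]
    exact ⟨N, by omega, y, by omega, hyv, hya⟩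
  have hE : EV Z.E x r := ⟨z, hru.symm, by rw [hra, hrs]; exact hzv, hza⟩
  have hV : Z.WR x r ↔ ∃ j ≤ Z.τ n ^ k, AcceptsIn M (List.replicate n b) j := by
    constructor
    · rintro ⟨-, -, y, hy, hyv, hya⟩
      rw [hrs, hsk] at hy
      rw [hrs, hsd] at hyv hya
      exact ⟨y.length, hy, (acceptsIn_iff_desc M b n _).2 ⟨y, rfl, hyv, hya⟩⟩
    · rintro ⟨j, hj, hacc⟩
      obtain ⟨y, hyl, hyv, hya⟩ := (acceptsIn_iff_desc M b n _).1 hacc
      refine ⟨hE, hg, y, ?_, ?_, ?_⟩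
      · rw [hrs, hsk, hyl]; exact hj
      · rw [hrs, hsd]; exact hyv
      · rw [hrs, hsd]; exact hya
  have hVX : Z.VX x a n ↔ Z.WR x r := by
    constructor
    · rintro ⟨r', h1, -, h2⟩
      rwa [Z.sN_mono.injective h1] at h2
    · intro h
      exact ⟨r, rfl, hra, h⟩
  have hlen : (List.replicate n b).length = n := List.length_replicate
  by_cases hv : Z.WR x r
  · obtain ⟨j, -, hacc⟩ := hV.1 hv
    have h2 : List.replicate n b ∈ ({w : List A | Z.VX x a w.length})ᶜ := (hM _).2 ⟨j, hacc⟩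
    refine h2 ?_
    show Z.VX x a (List.replicate n b).length
    rw [hlen]
    exact hVX.2 hv
  · have h2 : List.replicate n b ∈ ({w : List A | Z.VX x a w.length})ᶜ := by
      intro h3
      have h4 : Z.VX x a (List.replicate n b).length := h3
      rw [hlen] at h4
      exact hv (hVX.1 h4)
    obtain ⟨j, hj, hacc⟩ := hp _ h2
    refine hv (hV.2 ⟨j, hj.trans ?_, hacc⟩)
    rw [hlen, Z.tX_of_not (n := n) (r := r) le_rfl (Z.sN_mono (Nat.lt_succ_self r))
      (fun h => hv h.1)]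
    have h5 := two_le_sN (τ := Z.τ) r
    have h6 := Z.Gid n
    exact (hk _ (by omega)).trans (Nat.pow_le_pow_left (Z.τG _).1 _)

theorem neg_case {x : ℕ} (hx : x ∉ Z.W.set) (A : Type) [Finite A] [Nonempty A] :
    ∃ L ∈ NTIMEPol A (Z.tX x), Lᶜ ∉ NTIMEPol A (Z.tX x) := by
  have hx' : ∃ a, ¬ ∃ b, ∀ c, Z.W.R x a b c = true := by
    by_contra h
    push Not at h
    exact hx fun a => (h a).imp fun b hb c => by simpa using hb c
  obtain ⟨a, ha⟩ := hx'
  exact ⟨_, Z.mem_neg x a A, Z.not_mem_neg ha A⟩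

end Dat

end Pool.Agent.H27.LD
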