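import Pool.Agent.H27.LD.Comp

/-!
If `NTIME(Pol G)` is not closed under complementation, then for a suitable slowly growing `h` no
`t` between `G` and `G ^ h` is.
-/

namespace Pool.Agent.H27.LD

open Pool.Agent.Lead.NTM Encodable Denumerable
open Pool.Agent.H83.NT (Pl words mem_words accv AL AL_iff AccL accv_iff Coding exists_coding
  exists_machine_of_desc mem_NTIMEPol_iff exists_time_bound computable_AL computable_accv okw
  okw_iff computable_okw closed_iff exists_Pl Pl_mono)

/-- The word found for the machine `i` and the degree `k`: `z = (u, s)`. -/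
def Fnd (G : ℕ → ℕ) (m i0 d0 i k : ℕ) (u : List ℕ) (s : ℕ) : Prop :=
  (∀ a ∈ u, a < m) ∧ ((accv (i0, d0) u (G u.length) = true ∧ AL i u s = true) ∨
    (accv (i0, d0) u (G u.length) = false ∧ accv (i, k) u (G u.length) = false))

theorem cp_Fnd {G : ℕ → ℕ} (hG : Computable G) (m i0 d0 : ℕ) :
    ComputablePred fun q : (ℕ × ℕ) × ℕ => Fnd G m i0 d0 q.1.1 q.1.2
      (ofNat (List ℕ × ℕ) q.2).1 (ofNat (List ℕ × ℕ) q.2).2 := by
  have hz : Computable fun q : (ℕ × ℕ) × ℕ => ofNat (List ℕ × ℕ) q.2 :=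
    (Computable.ofNat (List ℕ × ℕ)).comp Computable.snd
  have hu : Computable fun q : (ℕ × ℕ) × ℕ => (ofNat (List ℕ × ℕ) q.2).1 :=
    Computable.fst.comp hz
  have hs : Computable fun q : (ℕ × ℕ) × ℕ => (ofNat (List ℕ × ℕ) q.2).2 :=
    Computable.snd.comp hz
  have hi : Computable fun q : (ℕ × ℕ) × ℕ => q.1.1 := Computable.fst.comp Computable.fst
  have hk : Computable fun q : (ℕ × ℕ) × ℕ => q.1.2 := Computable.snd.comp Computable.fst
  have hl : Computable fun q : (ℕ × ℕ) × ℕ => G (ofNat (List ℕ × ℕ) q.2).1.length :=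
    hG.comp (Primrec.list_length.to_comp.comp hu)
  have h1 := (computable_okw m).comp hu
  have h2 := computable_accv.comp ((Computable.const (i0, d0)).pair (hu.pair hl))
  have h3 := computable_AL.comp ((hi.pair hu).pair hs)
  have h4 := computable_accv.comp ((hi.pair hk).pair (hu.pair hl))
  have h5 := cp_and (cp_bool h1) (cp_or (cp_and (cp_bool h2) (cp_bool h3))
    (cp_and (cp_not (cp_bool h2)) (cp_not (cp_bool h4))))
  refine cp_congr h5 fun q => ?_
  unfold Fnd
  rw [okw_iff]
  simp only [Bool.not_eq_true]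

theorem exists_Fnd {G : ℕ → ℕ} {A : Type} [Finite A] {m : ℕ} (E : Coding A m) {L : Set (List A)}
    {i0 d0 : ℕ} (hL : ∀ w : List A, w ∈ L ↔ accv (i0, d0) (w.map E.e) (G w.length) = true)
    (hL' : Lᶜ ∉ NTIMEPol A G) (i k : ℕ) : ∃ u s, Fnd G m i0 d0 i k u s := by
  by_contra hne
  push Not at hne
  apply hL'
  have hlen : ∀ w : List A, (w.map E.e).length = w.length := fun w => List.length_map _
  have hlt : ∀ w : List A, ∀ a ∈ w.map E.e, a < m := by
    intro w a ha
    rw [List.mem_map] at ha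
    obtain ⟨b, -, rfl⟩ := ha
    exact E.lt b
  have h1 : ∀ (w : List A) (s : ℕ), AL i (w.map E.e) s = true → w ∉ L := by
    intro w s hs hw
    refine hne (w.map E.e) s ⟨hlt w, Or.inl ⟨?_, hs⟩⟩
    rw [hlen]
    exact (hL w).1 hw
  have h2 : ∀ w : List A, w ∉ L → accv (i, k) (w.map E.e) (G w.length) = true := by
    intro w hw
    by_contra h3
    refine hne (w.map E.e) 0 ⟨hlt w, Or.inr ⟨?_, ?_⟩⟩
    · rw [hlen, ← Bool.not_eq_true]
      exact fun h4 => hw ((hL w).2 h4)
    · rw [hlen]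
      simpa using h3
  refine (mem_NTIMEPol_iff E).2 ⟨i, k, fun w => ⟨h2 w, fun h3 => ?_⟩, fun w s hs =>
    h2 w (h1 w s hs)⟩
  rw [accv_iff] at h3
  obtain ⟨s, -, hs⟩ := h3
  exact h1 w s (AL_iff.2 hs)

/-- Slow functions. -/
theorem exists_slow {N : ℕ → ℕ} (hN : Computable N) (hm : Monotone N) (hid : ∀ j, j ≤ N j) :
    ∃ h : ℕ → ℕ, Computable h ∧ Monotone h ∧ (∀ k, ∃ n, k ≤ h n) ∧ (∀ n, 1 ≤ h n) ∧
      ∀ n j, n ≤ N j → h n ≤ j + 1 := by
  have hcard : ∀ n B : ℕ, (Nat.rec (motive := fun _ => ℕ) 0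
      (fun j ih => if N j < n then ih + 1 else ih) B) =
      ((Finset.range B).filter fun j => N j < n).card := by
    intro n B
    induction B with
    | zero => rfl
    | succ B ih =>
      simp only
      rw [ih, Finset.range_add_one, Finset.filter_insert]
      split_ifs with h
      · rw [Finset.card_insert_of_notMem (by simp)]
      · rfl
  refine ⟨fun n => 1 + ((Finset.range n).filter fun j => N j < n).card, ?_, ?_, ?_, ?_, ?_⟩
  · have h1 : Computable₂ fun (n : ℕ) (p : ℕ × ℕ) => if N p.1 < n then p.2 + 1 else p.2 :=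
      cp_ite (cp_lt (hN.comp (Computable.fst.comp Computable.snd)) Computable.fst)
        (Computable.succ.comp (Computable.snd.comp Computable.snd))
        (Computable.snd.comp Computable.snd)
    have h2 : Computable fun n : ℕ => Nat.rec (motive := fun _ => ℕ) 0
        (fun j ih => if N j < n then ih + 1 else ih) n :=
      Computable.nat_rec (f := fun n : ℕ => n) (g := fun _ => 0) Computable.id
        (Computable.const _) h1
    refine (Primrec.nat_add.to_comp.comp (Computable.const 1) h2).of_eq fun n => ?_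
    rw [hcard]
  · intro n n' h
    refine Nat.add_le_add_left (Finset.card_le_card fun j hj => ?_) _
    rw [Finset.mem_filter, Finset.mem_range] at hj ⊢
    omega
  · intro k
    refine ⟨N k + 1, ?_⟩
    have h1 : (Finset.range k).card ≤ ((Finset.range (N k + 1)).filter
        fun j => N j < N k + 1).card := by
      refine Finset.card_le_card fun j hj => ?_
      rw [Finset.mem_range] at hj
      rw [Finset.mem_filter, Finset.mem_range]
      have h2 := hm hj.le
      have h3 := hid k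
      omega
    rw [Finset.card_range] at h1
    show k ≤ 1 + _
    omega
  · intro n
    show 1 ≤ 1 + _
    omega
  · intro n j hn
    have h1 : ((Finset.range n).filter fun j => N j < n).card ≤ (Finset.range j).card := by
      refine Finset.card_le_card fun j' hj => ?_
      rw [Finset.mem_filter, Finset.mem_range] at hj
      rw [Finset.mem_range]
      by_contra h2
      have h3 := hm (show j ≤ j' by omega)
      omega
    rw [Finset.card_range] at h1
    show 1 + _ ≤ j + 1
    omega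

theorem Pl_pow_le {j d x : ℕ} (hd : d ≤ j) : Pl d (x ^ (j + 1)) ≤ Pl ((j + 2) * (j + 2)) x := by
  unfold Pl
  set K := (j + 2) * (j + 2) with hK
  have h1 : x ^ (j + 1) + d ≤ (x + (d + 1)) ^ (j + 1) := by
    have h2 := pow_add_pow_le (Nat.zero_le x) (Nat.zero_le (d + 1)) (show j + 1 ≠ 0 by omega)
    have h3 : d + 1 ≤ (d + 1) ^ (j + 1) := by
      calc d + 1 = (d + 1) ^ 1 := (pow_one _).symm
        _ ≤ _ := Nat.pow_le_pow_right (by omega) (by omega)
    omega
  have hK1 : d + 1 ≤ K := by nlinarith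
  have hK2 : (j + 1) * d ≤ K := by
    calc (j + 1) * d ≤ (j + 2) * (j + 2) := Nat.mul_le_mul (by omega) (by omega)
      _ = K := rfl
  calc (x ^ (j + 1) + d) ^ d ≤ ((x + (d + 1)) ^ (j + 1)) ^ d := Nat.pow_le_pow_left h1 _
    _ = (x + (d + 1)) ^ ((j + 1) * d) := (pow_mul _ _ _).symm
    _ ≤ (x + K) ^ ((j + 1) * d) := Nat.pow_le_pow_left (by omega) _
    _ ≤ (x + K) ^ K := Nat.pow_le_pow_right (by omega) hK2

theorem exists_bound {W : ℕ × ℕ → ℕ} (hW : Computable W) : ∃ N : ℕ → ℕ, Computable N ∧ Monotone N ∧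
    (∀ j, j ≤ N j) ∧ ∀ i j, i ≤ j → W (i, j) ≤ N j := by
  have hsum : ∀ B : ℕ, (Nat.rec (motive := fun _ => ℕ) 0 (fun z ih => ih + W z.unpair) B) =
      ∑ z ∈ Finset.range B, W z.unpair := by
    intro B
    induction B with
    | zero => rfl
    | succ B ih =>
      simp only
      rw [ih, Finset.sum_range_succ]
  have hpair : ∀ i j, i ≤ j → Nat.pair i j ≤ Nat.pair j j := by
    intro i j h
    rcases h.lt_or_eq with h1 | h1
    · exact (Nat.pair_lt_pair_left j h1).le
    · rw [h1]
  have hpp : ∀ j j', j ≤ j' → Nat.pair j j ≤ Nat.pair j' j' := by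
    intro j j' h
    rcases h.lt_or_eq with h1 | h1
    · exact ((Nat.pair_lt_pair_left j h1).trans (Nat.pair_lt_pair_right j' h1)).le
    · rw [h1]
  refine ⟨fun j => j + ∑ z ∈ Finset.range (Nat.pair j j + 1), W z.unpair, ?_, ?_, ?_, ?_⟩
  · have h1 : Computable₂ fun (_ : ℕ) (p : ℕ × ℕ) => p.2 + W p.1.unpair :=
      Primrec.nat_add.to_comp.comp (Computable.snd.comp Computable.snd)
        (hW.comp (Computable.unpair.comp (Computable.fst.comp Computable.snd)))
    have h2 : Computable fun j : ℕ => Nat.rec (motive := fun _ => ℕ) 0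
        (fun z ih => ih + W z.unpair) (Nat.pair j j + 1) :=
      Computable.nat_rec (f := fun j : ℕ => Nat.pair j j + 1) (g := fun _ => 0)
        (Computable.succ.comp (Primrec₂.natPair.to_comp.comp Computable.id Computable.id))
        (Computable.const _) h1
    refine (Primrec.nat_add.to_comp.comp Computable.id h2).of_eq fun j => ?_
    exact congrArg (fun z => j + z) (hsum (Nat.pair j j + 1))
  · intro j j' h
    refine Nat.add_le_add h (Finset.sum_le_sum_of_subset (Finset.range_subset_range.2 ?_))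
    have := hpp j j' h
    omega
  · intro j
    exact Nat.le_add_right _ _
  · intro i j h
    have h1 : W (Nat.pair i j).unpair ≤ ∑ z ∈ Finset.range (Nat.pair j j + 1), W z.unpair :=
      Finset.single_le_sum (f := fun z => W (Nat.unpair z)) (fun _ _ => Nat.zero_le _)
        (Finset.mem_range.2 (Nat.lt_succ_of_le (hpair i j h)))
    rw [Nat.unpair_pair] at h1
    exact h1.trans (Nat.le_add_left _ _)

theorem slow {G : ℕ → ℕ} (hG : Computable G) {A : Type} [Finite A]
    (hA : NTIMEPol A G ≠ coNTIMEPol A G) :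
    ∃ h : ℕ → ℕ, Computable h ∧ Monotone h ∧ (∀ k, ∃ n, k ≤ h n) ∧ (∀ n, 1 ≤ h n) ∧
      ∀ t : ℕ → ℕ, (∀ n, G n ≤ t n ∧ t n ≤ G n ^ h n) → NTIMEPol A t ≠ coNTIMEPol A t := by
  rw [Ne, closed_iff] at hA
  push Not at hA
  obtain ⟨L, hL, hL'⟩ := hA
  obtain ⟨m, ⟨E⟩⟩ := exists_coding A
  obtain ⟨i0, d0, h1, h2⟩ := (mem_NTIMEPol_iff E).1 hL
  have hex : ∀ q : ℕ × ℕ, ∃ z, Fnd G m i0 d0 q.1 q.2 (ofNat (List ℕ × ℕ) z).1
      (ofNat (List ℕ × ℕ) z).2 := by
    intro q
    obtain ⟨u, s, hus⟩ := exists_Fnd E h1 hL' q.1 q.2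
    refine ⟨encode (u, s), ?_⟩
    rw [ofNat_encode]
    exact hus
  obtain ⟨f, hf, hfs⟩ := cp_search (p := fun (q : ℕ × ℕ) z => Fnd G m i0 d0 q.1 q.2
    (ofNat (List ℕ × ℕ) z).1 (ofNat (List ℕ × ℕ) z).2) (cp_Fnd hG m i0 d0) hex
  have hW : Computable fun q : ℕ × ℕ =>
      (ofNat (List ℕ × ℕ) (f (q.1, (q.2 + 2) * (q.2 + 2)))).1.length := by
    have h3 : Computable fun q : ℕ × ℕ => (q.1, (q.2 + 2) * (q.2 + 2)) := by
      have h4 : Primrec fun q : ℕ × ℕ => q.2 + 2 :=
        Primrec.nat_add.comp Primrec.snd (Primrec.const 2)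
      exact (Primrec.fst.pair (Primrec.nat_mul.comp h4 h4)).to_comp
    exact Primrec.list_length.to_comp.comp (Computable.fst.comp
      ((Computable.ofNat (List ℕ × ℕ)).comp (hf.comp h3)))
  obtain ⟨N, hNc, hNm, hNid, hNW⟩ := exists_bound hW
  obtain ⟨h, hc, hm, hu, hh1, hhN⟩ := exists_slow hNc hNm hNid
  refine ⟨h, hc, hm, hu, hh1, fun t ht hcl => ?_⟩
  have hLt : L ∈ NTIMEPol A t := mem_NTIMEPol_of_le hL Polynomial.X fun w _ => by
    rw [Polynomial.eval_X]
    exact (ht _).1
  obtain ⟨i, d, h3, h4⟩ := (mem_NTIMEPol_iff E).1 (closed_iff.1 hcl L hLt)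
  set j := max i d with hj
  have h5 := hfs (i, (j + 2) * (j + 2))
  have h6 := hNW i j (le_max_left _ _)
  simp only at h5 h6
  generalize (ofNat (List ℕ × ℕ) (f (i, (j + 2) * (j + 2)))).1 = u at h5 h6
  generalize (ofNat (List ℕ × ℕ) (f (i, (j + 2) * (j + 2)))).2 = s at h5
  obtain ⟨h7, h8⟩ := h5
  obtain ⟨w, hw, rfl⟩ := E.exists_word (n := u.length) (mem_words.2 ⟨rfl, h7⟩)
  rw [List.length_map] at h6 h8
  rcases h8 with ⟨h8, h9⟩ | ⟨h8, h9⟩
  · exact (h3 w).2 (h4 w s h9) ((h1 w).2 h8)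
  · have h10 : w ∉ L := by
      intro h11
      rw [(h1 w).1 h11] at h8
      exact absurd h8 (by simp)
    have h11 := (h3 w).1 h10
    rw [accv_iff] at h11
    obtain ⟨s', h12, h13⟩ := h11
    have h14 : accv (i, (j + 2) * (j + 2)) (w.map E.e) (G w.length) = true := by
      rw [accv_iff]
      refine ⟨s', h12.trans ?_, h13⟩
      refine le_trans (Pl_mono ?_) (Pl_pow_le (le_max_right i d))
      have h15 := hhN w.length j h6
      rcases Nat.eq_zero_or_pos (G w.length) with h0 | h0
      · have h16 := (ht w.length).2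
        rw [h0, Nat.zero_pow (hh1 _)] at h16
        omega
      · exact (ht w.length).2.trans (Nat.pow_le_pow_right h0 h15)
    rw [h14] at h9
    exact absurd h9 (by simp)

end Pool.Agent.H27.LD
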