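import Pool.Agent.H27.LD.CP
import Pool.Agent.H83.NT.Main

/-!
The window `G ≤ t ≤ G ^ h` and the upper bound `Π⁰₃`.
-/

namespace Pool.Agent.H27.LD

open Pool.Agent.Lead.NTM Encodable Denumerable
open Pool.Agent.H83.NT
open Nat.Partrec (Code)

/-- The index set of the nondecreasing functions in the window is `Π⁰₃`. -/
theorem isPi3_window {G h : ℕ → ℕ} (hG : Computable G) (hh : Computable h) :
    IsPi3 (IndexSet fun t => Monotone t ∧ ∀ n, G n ≤ t n ∧ t n ≤ G n ^ h n) := by
  refine ⟨fun x a b _ => ((ex (b, x) a).isSome && (ex (b, x) (a + 1)).isSome) &&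
    (decide ((ex (b, x) a).getD 0 ≤ (ex (b, x) (a + 1)).getD 0) &&
      (decide (G a ≤ (ex (b, x) a).getD 0) && decide ((ex (b, x) a).getD 0 ≤ G a ^ h a))), ?_,
    fun x => ?_⟩
  · have hz : Computable fun q : (ℕ × ℕ) × (ℕ × ℕ) => ((q.2.1, q.1.1) : ℕ × ℕ) :=
      (Computable.fst.comp Computable.snd).pair (Computable.fst.comp Computable.fst)
    have ha : Computable fun q : (ℕ × ℕ) × (ℕ × ℕ) => q.1.2 := Computable.snd.comp Computable.fst
    have ha' : Computable fun q : (ℕ × ℕ) × (ℕ × ℕ) => q.1.2 + 1 := Computable.succ.comp ha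
    have h1 := computable_exS.comp hz ha
    have h2 := computable_exS.comp hz ha'
    have h3 := computable_exV.comp hz ha
    have h4 := computable_exV.comp hz ha'
    have hpow : Computable₂ ((· ^ ·) : ℕ → ℕ → ℕ) :=
      (Primrec₂.unpaired'.1 Nat.Primrec.pow).to_comp
    exact computable_and.comp (computable_and.comp h1 h2)
      (computable_and.comp (computable_len.comp h3 h4)
        (computable_and.comp (computable_len.comp (hG.comp ha) h3)
          (computable_len.comp h3 (hpow.comp (hG.comp ha) (hh.comp ha)))))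
  · simp only [Bool.and_eq_true, decide_eq_true_eq]
    constructor
    · rintro ⟨t, ht, h1, h2⟩ a
      obtain ⟨k, hk⟩ := exists_ex (ht a)
      obtain ⟨k', hk'⟩ := exists_ex (ht (a + 1))
      have h3 : ∀ {k k' n v : ℕ}, k ≤ k' → ex (k, x) n = some v → ex (k', x) n = some v := by
        intro k k' n v hkk h
        unfold ex at h ⊢
        exact Option.mem_def.1 (Code.evaln_mono hkk (Option.mem_def.2 h))
      have h4 := h3 (le_max_left k k') hk
      have h5 := h3 (le_max_right k k') hk'
      refine ⟨max k k', fun _ => ?_⟩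
      rw [h4, h5]
      exact ⟨⟨rfl, rfl⟩, h1 (Nat.le_succ a), h2 a⟩
    · intro hall
      choose k hk using hall
      choose t ht using fun n => Option.isSome_iff_exists.1 (hk n 0).1.1
      choose t' ht' using fun n => Option.isSome_iff_exists.1 (hk n 0).1.2
      have hmem : ∀ n, t n ∈ (ofNat Code x).eval n := by
        intro n
        have := ht n
        unfold ex at this
        exact Code.evaln_sound (Option.mem_def.2 this)
      refine ⟨t, hmem, ?_, ?_⟩
      · refine monotone_nat_of_le_succ fun n => ?_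
        have h1 := (hk n 0).2.1
        rw [ht n, ht' n] at h1
        have h2 := ex_some (ht' n) (hmem (n + 1))
        rw [← h2]
        exact h1
      · intro n
        have h1 := (hk n 0).2.2
        rw [ht n] at h1
        exact h1

/-- The intersection with the closed ones. -/
theorem isPi3_window_closed {G h : ℕ → ℕ} (hG : Computable G) (hh : Computable h) (A : Type)
    [Finite A] : IsPi3 (IndexSet fun t => (Monotone t ∧ ∀ n, G n ≤ t n ∧ t n ≤ G n ^ h n) ∧
      NTIMEPol A t = coNTIMEPol A t) := by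
  have h1 := (isPi3_window hG hh).inter (isPi3_closed A)
  have heq : (IndexSet fun t => (Monotone t ∧ ∀ n, G n ≤ t n ∧ t n ≤ G n ^ h n) ∧
      NTIMEPol A t = coNTIMEPol A t) =
      (IndexSet fun t => Monotone t ∧ ∀ n, G n ≤ t n ∧ t n ≤ G n ^ h n) ∩
        (IndexSet fun t => NTIMEPol A t = coNTIMEPol A t) := by
    ext x
    constructor
    · rintro ⟨t, h1, h2, h3⟩
      exact ⟨⟨t, h1, h2⟩, ⟨t, h1, h3⟩⟩
    · rintro ⟨⟨t, h1, h2⟩, ⟨t', h1', h3⟩⟩
      have : t' = t := funext fun n => Part.mem_unique (h1' n) (h1 n)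
      subst this
      exact ⟨t', h1, h2, h3⟩
  rw [heq]
  exact h1

end Pool.Agent.H27.LD
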