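import Pool.Agent.H27.LD.Pos
import Pool.Agent.H27.LD.Neg
import Pool.Agent.H27.LD.Win
import Pool.Agent.H27.LD.Slow

/-!
The local dichotomy.
-/

namespace Pool.Agent.H27.LD

open Pool.Agent.Lead.NTM Pool.Agent.H71.NT
open Pool.Agent.H83.NT (P3 IsPi3 IndexSet exists_codes closed_iff)

/-- `h` is a slowly growing computable exponent. -/
structure Slowly (h : ℕ → ℕ) : Prop where
  comp : Computable h
  mono : Monotone h
  unbounded : ∀ k, ∃ n, k ≤ h n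
  one_le : ∀ n, 1 ≤ h n

/-- The computable families. -/
theorem core {G h : ℕ → ℕ} (hGc : Computable G) (hGm : Monotone G) (hid : ∀ n, n ≤ G n)
    (hGh : Honest G) (hh : Slowly h) {S : Set ℕ} (hS : IsPi3 S) :
    ∃ f : ℕ → ℕ, Computable f ∧ ∀ x, ∃ t : ℕ → ℕ,
      (∀ n, t n ∈ (Denumerable.ofNat Nat.Partrec.Code (f x)).eval n) ∧
      Monotone t ∧ (∀ n, G n ≤ t n ∧ t n ≤ G n ^ h n) ∧ (∃ᶠ n in Filter.atTop, t n = G n) ∧
      (x ∈ S → ∀ (A : Type) [Finite A], NTIMEPol A t = NTIMEPol A G) ∧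
      (x ∉ S → ∀ (A : Type) [Finite A] [Nonempty A], NTIMEPol A t ≠ coNTIMEPol A t) := by
  obtain ⟨R, hR, hRS⟩ := hS
  let W : P3 := ⟨R, hR⟩
  have hW : W.set = S := by
    ext x
    exact (hRS x).symm
  obtain ⟨Z, hZG, hZh, hZW⟩ := exists_dat hGc hGm hid hGh hh.comp hh.mono hh.unbounded hh.one_le W
  obtain ⟨f, hf, hft⟩ := exists_codes (computable_tX Z)
  refine ⟨f, hf, fun x => ⟨Z.tX x, hft x, Z.tX_mono x, fun n => ⟨?_, ?_⟩, ?_, fun hx A _ => ?_,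
    fun hx A _ _ => ?_⟩⟩
  · rw [← hZG]
    exact Z.G_le_tX x n
  · rw [← hZG, ← hZh]
    exact Z.tX_window x n
  · rw [← hZG]
    exact Z.frequently_eq x
  · rw [← hZG]
    rw [← hW, ← hZW] at hx
    exact Z.pos_case hx A
  · rw [← hW, ← hZW] at hx
    obtain ⟨L, hL, hL'⟩ := Z.neg_case hx A
    exact fun h => hL' (closed_iff.1 h L hL)

end Pool.Agent.H27.LD
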