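import Pool.Agent.H27.LD.Stage

/-!
The positive case: `NTIME(Pol (tX x)) = NTIME(Pol G)`.
-/

namespace Pool.Agent.H27.LD

open Pool.Agent.Lead.NTM Pool.Agent.H71.NT Encodable Denumerable
open Pool.Agent.H83.NT (P3 Pl words mem_words accv AL AL_iff AccL accv_iff Coding exists_coding
  exists_machine_of_desc mem_NTIMEPol_iff exists_time_bound)

namespace Dat

variable (Z : Dat)

/-- A machine obeying the time bound is never active. -/
theorem not_act {x m i d : ℕ} {A : Type} (E : Coding A m)
    (h : ∀ (w : List A) (s : ℕ), AL i (w.map E.e) s = true →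
      accv (i, d) (w.map E.e) (Z.tX x w.length) = true) (r : ℕ) :
    ¬ Z.Act x (Nat.pair m (Nat.pair i d)) r := by
  induction r using Nat.strong_induction_on with
  | _ r ih =>
    intro hact
    obtain ⟨hWR, hlt, n, hn1, hn2, u, hu, hu1, hu2⟩ := hact
    have hnr : ¬ Z.Ra x r := fun hR => hR.2 _ hlt ⟨⟨hWR, hlt, n, hn1, hn2, u, hu, hu1, hu2⟩, ih⟩
    simp only [Nat.unpair_pair] at hu hu1 hu2
    obtain ⟨w, hw, rfl⟩ := E.exists_word hu
    rw [accv_iff] at hu1
    obtain ⟨s, -, hs⟩ := hu1
    have h1 := h w s (AL_iff.2 hs)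
    rw [hw, Z.tX_of_not hn1 hn2 hnr, hu2] at h1
    exact absurd h1 (by simp)

theorem pos_case {x : ℕ} (hx : x ∈ Z.W.set) (A : Type) [Finite A] :
    NTIMEPol A (Z.tX x) = NTIMEPol A Z.G := by
  classical
  refine Set.Subset.antisymm (fun L hL => ?_) fun L hL => ?_
  · obtain ⟨m, ⟨E⟩⟩ := exists_coding A
    obtain ⟨i, d, h1, h2⟩ := (mem_NTIMEPol_iff E).1 hL
    set e := Nat.pair m (Nat.pair i d) with he
    -- large lengths
    have hfin : ({r | aa r ≤ e ∧ Z.WR x r} : Set ℕ).Finite := by
      have h3 : ({r | aa r ≤ e ∧ Z.WR x r} : Set ℕ) =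
          ⋃ a ∈ {a : ℕ | a ≤ e}, {r | aa r = a ∧ Z.WR x r} := by
        ext r
        simp
      rw [h3]
      exact (Set.finite_le_nat e).biUnion fun a _ => Z.finite_WR (hx a)
    obtain ⟨R, hR⟩ := hfin.bddAbove
    obtain ⟨M, hM⟩ := exists_machine_of_desc E.inj E.lt E.surj
      (ofNat Pool.Agent.H83.NT.Desc i)
    obtain ⟨K, hK⟩ := exists_time_bound M (max 2 (sN Z.τ (R + 1)))
    have hpl : ∀ v, ((Polynomial.X + Polynomial.C d) ^ d + Polynomial.C K : Polynomial ℕ).eval v =
        Pl d v + K := by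
      intro v
      unfold Pl
      simp
    have hLM : ∀ w, w ∈ L ↔ Accepts M w := by
      intro w
      constructor
      · intro hw
        have h3 := (h1 w).1 hw
        rw [accv_iff] at h3
        obtain ⟨s, -, hs⟩ := h3
        exact ⟨s, (hM w s).2 hs⟩
      · rintro ⟨s, hs⟩
        exact (h1 w).2 (h2 w s (AL_iff.2 ((hM w s).1 hs)))
    refine ⟨M, (Polynomial.X + Polynomial.C d) ^ d + Polynomial.C K, hLM, fun w hw => ?_⟩
    rw [hpl]
    rcases Nat.lt_or_ge w.length (max 2 (sN Z.τ (R + 1))) with hlt | hge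
    · obtain ⟨s, h3, h4⟩ := hK w hlt ((hLM w).1 hw)
      exact ⟨s, by omega, h4⟩
    · have h3 := (h1 w).1 hw
      have key : accv (i, d) (w.map E.e) (Z.G w.length) = true := by
        obtain ⟨r, hr1, hr2⟩ := Z.exists_block (n := w.length) (by omega)
        by_cases hRa : Z.Ra x r
        · rw [Z.tX_of hr1 hr2 hRa] at h3
          by_cases hea : e < aa r
          · by_contra h4
            refine Z.not_act E h2 r ⟨hRa.1, hea, w.length, hr1, hr2, w.map E.e, ?_, ?_, ?_⟩
            · simp only [Nat.unpair_pair]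
              rw [mem_words]
              exact ⟨by simp, by simpa using fun a _ => E.lt a⟩
            · simp only [Nat.unpair_pair]
              exact h3
            · simp only [Nat.unpair_pair]
              simpa using h4
          · have h4 : r ≤ R := hR ⟨by omega, hRa.1⟩
            have h5 : sN Z.τ (r + 1) ≤ sN Z.τ (R + 1) := Z.sN_mono.monotone (by omega)
            omega
        · rwa [Z.tX_of_not hr1 hr2 hRa] at h3
      rw [accv_iff] at key
      obtain ⟨s, h4, h5⟩ := key
      exact ⟨s, by omega, (hM w s).2 h5⟩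
  · exact mem_NTIMEPol_of_le hL Polynomial.X fun w _ => by
      rw [Polynomial.eval_X]
      exact Z.G_le_tX x _

end Dat

end Pool.Agent.H27.LD
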