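import Pool.Agent.H27.LD.Comp

/-!
Properties of the time bounds `tX x`.
-/

namespace Pool.Agent.H27.LD

open Pool.Agent.Lead.NTM Pool.Agent.H71.NT

namespace Dat

variable (Z : Dat)

theorem sN_mono : StrictMono (sN Z.τ) := sN_strictMono Z.hD

theorem good {k n : ℕ} (h : Good Z.C k n) : Z.e0 * k ≤ Z.h n := by
  obtain ⟨N, hN, x, -, hv, ha⟩ := h
  have h2 := (Z.hC (Nat.pair k N)).2 ⟨x, hv, ha⟩
  rw [Nat.unpair_pair] at h2
  exact h2.trans (Z.hm hN)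

theorem val_lt (r : ℕ) : val Z.τ r < sN Z.τ (r + 1) := by
  have h1 : val Z.τ r ≤ (Z.τ (sN Z.τ r) + 2) ^ r := by
    calc Z.τ (sN Z.τ r) ^ kk (ss r) ≤ (Z.τ (sN Z.τ r) + 2) ^ kk (ss r) :=
          Nat.pow_le_pow_left (by omega) _
      _ ≤ (Z.τ (sN Z.τ r) + 2) ^ r := Nat.pow_le_pow_right (by omega) (kk_ss_le r)
  have h2 : (Z.τ (sN Z.τ r) + 2) ^ r < sN Z.τ (r + 1) := by
    rw [sN_succ]
    exact Nat.pow_lt_pow_right (by omega) (by omega)
  exact h1.trans_lt h2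

theorem exists_block {n : ℕ} (hn : 2 ≤ n) : ∃ r, sN Z.τ r ≤ n ∧ n < sN Z.τ (r + 1) := by
  classical
  have h1 : ∃ r, n < sN Z.τ r := ⟨n + 1, by
    have := Z.sN_mono.id_le (n + 1)
    simp only [id] at this
    omega⟩
  set m := Nat.find h1 with hm
  have h2 : n < sN Z.τ m := Nat.find_spec h1
  have h3 : 0 < m := by
    rcases Nat.eq_zero_or_pos m with h0 | h0
    · exfalso
      rw [h0] at h2
      have : sN Z.τ 0 = 2 := rfl
      omega
    · exact h0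
  refine ⟨m - 1, ?_, ?_⟩
  · have := Nat.find_min h1 (show m - 1 < m by omega)
    omega
  · rw [Nat.sub_add_cancel (by omega)]
    exact h2

theorem cX_succ (x n B : ℕ) [Decidable (sN Z.τ B ≤ n ∧ Z.Ra x B)] : Z.cX x n (B + 1) =
    max (Z.cX x n B) (if sN Z.τ B ≤ n ∧ Z.Ra x B then val Z.τ B else 0) := by
  unfold cX
  simp only
  congr

theorem le_cX {x n B r : ℕ} (hr : r < B) (h1 : sN Z.τ r ≤ n) (h2 : Z.Ra x r) :
    val Z.τ r ≤ Z.cX x n B := by
  classical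
  induction B with
  | zero => omega
  | succ B ih =>
    rw [cX_succ]
    rcases Nat.lt_succ_iff_lt_or_eq.1 hr with h3 | rfl
    · exact (ih h3).trans (le_max_left _ _)
    · rw [if_pos ⟨h1, h2⟩]
      exact le_max_right _ _

theorem cX_le {x n B K : ℕ} (h : ∀ r < B, sN Z.τ r ≤ n → Z.Ra x r → val Z.τ r ≤ K) :
    Z.cX x n B ≤ K := by
  classical
  induction B with
  | zero => exact Nat.zero_le _
  | succ B ih =>
    rw [cX_succ]
    refine max_le (ih fun r hr => h r (by omega)) ?_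
    split_ifs with h1
    · exact h B (by omega) h1.1 h1.2
    · exact Nat.zero_le _

theorem G_le_tX (x n : ℕ) : Z.G n ≤ Z.tX x n := le_max_left _ _

theorem val_le_tX {x n r : ℕ} (h1 : sN Z.τ r ≤ n) (h2 : Z.Ra x r) : val Z.τ r ≤ Z.tX x n := by
  refine (Z.le_cX ?_ h1 h2).trans (le_max_right _ _)
  have := Z.sN_mono.id_le r
  simp only [id] at this
  omega

theorem tX_le {x n K : ℕ} (hG : Z.G n ≤ K) (h : ∀ r, sN Z.τ r ≤ n → Z.Ra x r → val Z.τ r ≤ K) :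
    Z.tX x n ≤ K := max_le hG (Z.cX_le fun r _ => h r)

theorem tX_mono (x : ℕ) : Monotone (Z.tX x) := fun m n h =>
  Z.tX_le ((Z.Gm h).trans (Z.G_le_tX x n)) fun _ h1 h2 => Z.val_le_tX (h1.trans h) h2

theorem tX_small {x n : ℕ} (hn : n < 2) : Z.tX x n = Z.G n := by
  refine le_antisymm (Z.tX_le le_rfl fun r h1 _ => ?_) (Z.G_le_tX x n)
  have := two_le_sN (τ := Z.τ) r
  omega

/-- Stages below the block of `n` do not matter. -/
theorem val_le_G {n r r' : ℕ} (h1 : sN Z.τ r ≤ n) (h : r' < r) : val Z.τ r' ≤ Z.G n := by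
  have h2 := Z.val_lt r'
  have h3 : sN Z.τ (r' + 1) ≤ sN Z.τ r := Z.sN_mono.monotone h
  have h4 := Z.Gid n
  omega

theorem eq_of_block {n r r' : ℕ} (h1 : sN Z.τ r ≤ n) (h2 : n < sN Z.τ (r + 1))
    (h1' : sN Z.τ r' ≤ n) (h : ¬ r' < r) : r' = r := by
  by_contra h3
  have h4 : r + 1 ≤ r' := by omega
  have h5 : sN Z.τ (r + 1) ≤ sN Z.τ r' := Z.sN_mono.monotone h4
  omega

theorem tX_of_not {x n r : ℕ} (h1 : sN Z.τ r ≤ n) (h2 : n < sN Z.τ (r + 1)) (h : ¬ Z.Ra x r) :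
    Z.tX x n = Z.G n := by
  refine le_antisymm (Z.tX_le le_rfl fun r' h3 h4 => ?_) (Z.G_le_tX x n)
  by_cases h5 : r' < r
  · exact Z.val_le_G h1 h5
  · have h6 := Z.eq_of_block h1 h2 h3 h5
    subst h6
    exact absurd h4 h

theorem tX_of {x n r : ℕ} (h1 : sN Z.τ r ≤ n) (h2 : n < sN Z.τ (r + 1)) (h : Z.Ra x r) :
    Z.tX x n = max (Z.G n) (val Z.τ r) := by
  refine le_antisymm (Z.tX_le (le_max_left _ _) fun r' h3 _ => ?_)
    (max_le (Z.G_le_tX x n) (Z.val_le_tX h1 h))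
  by_cases h5 : r' < r
  · exact (Z.val_le_G h1 h5).trans (le_max_left _ _)
  · rw [Z.eq_of_block h1 h2 h3 h5]
    exact le_max_right _ _

/-- The time bound is not raised at the last point of a block. -/
theorem tX_last (x r : ℕ) : Z.tX x (sN Z.τ (r + 1) - 1) = Z.G (sN Z.τ (r + 1) - 1) := by
  have h0 := Z.val_lt r
  have h1 : sN Z.τ r < sN Z.τ (r + 1) := Z.sN_mono (Nat.lt_succ_self r)
  have h2 : sN Z.τ r ≤ sN Z.τ (r + 1) - 1 := by omega
  have h3 : sN Z.τ (r + 1) - 1 < sN Z.τ (r + 1) := by omega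
  by_cases h : Z.Ra x r
  · rw [Z.tX_of h2 h3 h]
    have h4 := Z.Gid (sN Z.τ (r + 1) - 1)
    omega
  · exact Z.tX_of_not h2 h3 h

theorem frequently_eq (x : ℕ) : ∃ᶠ n in Filter.atTop, Z.tX x n = Z.G n := by
  rw [Filter.frequently_atTop]
  intro B
  refine ⟨sN Z.τ (B + 1) - 1, ?_, Z.tX_last x B⟩
  have := Z.sN_mono.id_le (B + 1)
  simp only [id] at this
  show B ≤ _
  omega

theorem tX_window (x n : ℕ) : Z.tX x n ≤ Z.G n ^ Z.h n := by
  refine Z.tX_le ?_ fun r h1 h2 => ?_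
  · rcases Nat.eq_zero_or_pos (Z.G n) with h0 | h0
    · omega
    · calc Z.G n = Z.G n ^ 1 := (pow_one _).symm
        _ ≤ Z.G n ^ Z.h n := Nat.pow_le_pow_right h0 (Z.h1 n)
  · have hg : Good Z.C (kk (ss r)) (sN Z.τ r) := h2.1.2.1
    have h3 := two_le_sN (τ := Z.τ) r
    have h4 := Z.Gid (sN Z.τ r)
    calc val Z.τ r ≤ (Z.G (sN Z.τ r) ^ Z.e0) ^ kk (ss r) :=
          Nat.pow_le_pow_left ((Z.τG _).2.trans (Z.he _ (by omega))) _
      _ = Z.G (sN Z.τ r) ^ (Z.e0 * kk (ss r)) := (pow_mul _ _ _).symm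
      _ ≤ Z.G (sN Z.τ r) ^ Z.h (sN Z.τ r) := Nat.pow_le_pow_right (by omega) (Z.good hg)
      _ ≤ Z.G (sN Z.τ r) ^ Z.h n := Nat.pow_le_pow_right (by omega) (Z.hm h1)
      _ ≤ Z.G n ^ Z.h n := Nat.pow_le_pow_left (Z.Gm h1) _

/-! ### Finiteness -/

/-- For `x` in the `Π⁰₃` set, each `a` has only finitely many stages. -/
theorem finite_WR {x a : ℕ} (h : ∃ b, ∀ c, Z.W.R x a b c = true) :
    {r | aa r = a ∧ Z.WR x r}.Finite := by
  classical
  obtain ⟨b, hb⟩ := h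
  have h1 : ∀ r, aa r = a → Z.WR x r → ss r < b := by
    rintro r rfl ⟨⟨y, -, hy, hy'⟩, -⟩
    by_contra hlt
    obtain ⟨c, hc⟩ := (Z.hE x (aa r) (ss r)).2 ⟨y, hy, hy'⟩ b (by omega)
    rw [hb c] at hc
    exact absurd hc (by simp)
  -- the map `r ↦ ss r` is injective on the set
  refine Set.Finite.of_injOn (f := ss) (t := {s | s < b}) ?_ ?_ (Set.finite_lt_nat b)
  · rintro r ⟨h2, h3⟩
    exact h1 r h2 h3
  · rintro r ⟨h2, ⟨y, hy1, hy2, hy3⟩, -⟩ r' ⟨h2', ⟨y', hy1', hy2', hy3'⟩, -⟩ h4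
    have h5 : uu r = uu r' := by
      rw [← hy1, ← hy1']
      refine Z.hEu (inp x (aa r) (ss r)) y y' hy2 hy3 ?_ hy3'
      rw [h2, h4, ← h2']
      exact hy2'
    rw [← mk3_eq r, ← mk3_eq r', h2, h2', h4, h5]

/-- Each requirement blocks at most one stage. -/
theorem Blk_unique {x e r r' : ℕ} (h : Z.Blk x e r) (h' : Z.Blk x e r') : r = r' := by
  rcases Nat.lt_trichotomy r r' with h1 | h1 | h1
  · exact absurd h.1 (h'.2 r h1)
  · exact h1
  · exact absurd h'.1 (h.2 r' h1)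

/-- For each `a` only finitely many stages are blocked. -/
theorem finite_blocked (x a : ℕ) : {r | aa r = a ∧ Z.WR x r ∧ ¬ Z.Ra x r}.Finite := by
  classical
  have h1 : ∀ r, r ∈ {r | aa r = a ∧ Z.WR x r ∧ ¬ Z.Ra x r} → ∃ e < a, Z.Blk x e r := by
    rintro r ⟨rfl, h2, h3⟩
    by_contra h4
    push Not at h4
    exact h3 ⟨h2, h4⟩
  choose! e he using h1
  refine Set.Finite.of_injOn (f := e) (t := {s | s < a}) ?_ ?_ (Set.finite_lt_nat a)
  · intro r hr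
    exact (he r hr).1
  · intro r hr r' hr' h2
    have h3 := (he r hr).2
    rw [h2] at h3
    exact Z.Blk_unique h3 (he r' hr').2

end Dat

end Pool.Agent.H27.LD
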