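import Pool.Agent.H27.LD.Defs

/-!
The verification functions: `verW` for the part of the test which does not depend on `x`, `verX`
for the languages of the negative case.
-/

namespace Pool.Agent.H27.LD

open Pool.Agent.H79.Cx Pool.Agent.Lead.NTM Pool.Agent.H71.NT

variable {α : Type} [Enc α]

/-- The verification function of the test. The certificate is
`[N, s, u, a] :: h₁ :: h₂ :: h₃ :: h₄ :: l`. -/
def verW (C G : Desc) (n : ℕ) (c : List (List ℕ)) : Bool :=
  decide ((chn G n (c.drop 5)).2 = n) &&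
  (decide (Nat.pair (Desc.at2 c 0 3) (Nat.pair (Desc.at2 c 0 1) (Desc.at2 c 0 2)) =
    (c.drop 5).length) &&
  (decide (Desc.at2 c 0 0 ≤ n) && (decide ((c.getD 1 []).length ≤ n) &&
  (C.valid (Nat.pair (kk (Desc.at2 c 0 1)) (Desc.at2 c 0 0)) (c.getD 1 []) &&
  (C.acc (c.getD 1 []) &&
  (G.valid n (c.getD 3 []) && (G.acc (c.getD 3 []) &&
  (decide ((c.getD 2 []).length ≤ pw (c.getD 3 []).length (c.getD 2 []).length
    (kk (Desc.at2 c 0 1))) &&
  ((dd (Desc.at2 c 0 1)).valid n (c.getD 2 []) &&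
    (dd (Desc.at2 c 0 1)).acc (c.getD 2 []))))))))))

/-- The verification function with the events. -/
def verX (C G E : Desc) (x a n : ℕ) (c : List (List ℕ)) : Bool :=
  verW C G n c && (decide (Desc.at2 c 0 3 = a) &&
    (decide ((c.getD 4 []).length = Desc.at2 c 0 2) &&
    (E.valid (Nat.pair x (Nat.pair a (Desc.at2 c 0 1))) (c.getD 4 []) && E.acc (c.getD 4 []))))

@[fun_prop]
theorem PT.verW (C G : Desc) {n : α → ℕ} {c : α → List (List ℕ)} (hn : PT n) (hc : PT c) :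
    PT (fun x => verW C G (n x) (c x)) := by
  unfold LD.verW
  fun_prop

@[fun_prop]
theorem PT.verX (C G E : Desc) (x a : ℕ) {n : α → ℕ} {c : α → List (List ℕ)} (hn : PT n)
    (hc : PT c) : PT (fun z => verX C G E x a (n z) (c z)) := by
  unfold LD.verX
  fun_prop

/-- The verification functions on lists of bits. -/
def verWB (C G : Desc) (x : ℕ × List Bool) : Bool := verW C G x.1 (decLL (parse x.2))

/-- The verification functions on lists of bits. -/
def verXB (C G E : Desc) (x a : ℕ) (z : ℕ × List Bool) : Bool :=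
  verX C G E x a z.1 (decLL (parse z.2))

theorem pt_verWB (C G : Desc) : PT (verWB C G) := by
  show PT fun x => verWB C G x
  unfold verWB
  fun_prop

theorem pt_verXB (C G E : Desc) (x a : ℕ) : PT (verXB C G E x a) := by
  show PT fun z => verXB C G E x a z
  unfold verXB
  fun_prop

section Spec

variable {G : Desc} {τ : ℕ → ℕ} (hG : IsTime G τ) (C : Desc)

include hG

theorem verW_iff (n : ℕ) (c : List (List ℕ)) : verW C G n c = true ↔
    (chn G n (c.drop 5)).2 = n ∧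
    mk3 (Desc.at2 c 0 3) (Desc.at2 c 0 1) (Desc.at2 c 0 2) = (c.drop 5).length ∧
    Desc.at2 c 0 0 ≤ n ∧ (c.getD 1 []).length ≤ n ∧
    C.valid (Nat.pair (kk (Desc.at2 c 0 1)) (Desc.at2 c 0 0)) (c.getD 1 []) = true ∧
    C.acc (c.getD 1 []) = true ∧
    G.valid n (c.getD 3 []) = true ∧ G.acc (c.getD 3 []) = true ∧
    (c.getD 2 []).length ≤ τ n ^ (kk (Desc.at2 c 0 1)) ∧
    (dd (Desc.at2 c 0 1)).valid n (c.getD 2 []) = true ∧
    (dd (Desc.at2 c 0 1)).acc (c.getD 2 []) = true := by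
  unfold verW mk3
  simp only [Bool.and_eq_true, decide_eq_true_eq]
  refine and_congr_right fun h0 => and_congr_right fun _ => and_congr_right fun _ =>
    and_congr_right fun _ => and_congr_right fun _ => and_congr_right fun _ =>
    and_congr_right fun hv => and_congr_right fun ha => ?_
  have h1 := hG.length hv ha
  have hn : 1 ≤ τ n := by
    have h2 := two_le_sN (τ := τ) (c.drop 5).length
    have h3 := chn_eq hG h0
    have h4 := hG.2 n
    omega
  rw [h1, le_pw_iff _ _ _ hn]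

/-- What a certificate certifies. -/
theorem of_verW {n : ℕ} {c : List (List ℕ)} (h : verW C G n c = true) :
    ∃ r, sN τ r = n ∧ WV C τ r ∧ aa r = Desc.at2 c 0 3 ∧ ss r = Desc.at2 c 0 1 ∧
      uu r = Desc.at2 c 0 2 := by
  rw [verW_iff hG] at h
  obtain ⟨h1, h2, h3, h4, h5, h6, h7, h8, h9, h10, h11⟩ := h
  have hn := chn_eq hG h1
  refine ⟨_, hn, ?_, ?_, ?_, ?_⟩
  · rw [← h2] at hn ⊢
    unfold WV
    rw [ss_mk3, hn]
    exact ⟨⟨_, h3, _, h4, h5, h6⟩, _, h9, h10, h11⟩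
  · rw [← h2, aa_mk3]
  · rw [← h2, ss_mk3]
  · rw [← h2, uu_mk3]

/-- Small certificates, with an arbitrary fourth history. -/
theorem exists_cert (b : ℕ) : ∃ Q : Polynomial ℕ, ∀ (r : ℕ) (h4 : List ℕ), WV C τ r →
    h4.length ≤ sN τ r → (∀ ρ ∈ h4, ρ < b) →
    ∃ c : List (List ℕ), verW C G (sN τ r) c = true ∧ c.getD 4 [] = h4 ∧
      Desc.at2 c 0 3 = aa r ∧ Desc.at2 c 0 1 = ss r ∧ Desc.at2 c 0 2 = uu r ∧
      (cd c).length ≤ Q.eval (τ (sN τ r) + τ (sN τ r) ^ kk (ss r)) := by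
  obtain ⟨R, hR⟩ := (PT.dd (α := ℕ) PT.id).size_le
  refine ⟨20 + 8 * Polynomial.X + (1 + Polynomial.X * Polynomial.C (2 * C.nr + 2)) +
    (1 + Polynomial.X * (2 * (R.comp (2 * Polynomial.X + 1)) + 2)) +
    (1 + Polynomial.X * Polynomial.C (2 * G.nr + 2)) +
    (1 + Polynomial.X * Polynomial.C (2 * b + 2)) +
    (1 + Polynomial.X * (1 + (1 + Polynomial.X * Polynomial.C (2 * G.nr + 2)))), ?_⟩
  rintro r h4 ⟨⟨N, hN, h1, hl1, hv1, ha1⟩, h2, hl2, hv2, ha2⟩ hl4 hb4
  set n := sN τ r with hn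
  obtain ⟨h3, hl3, hv3, ha3⟩ := hG.exists n
  obtain ⟨l, hl, hc, hx⟩ := exists_chain hG n r le_rfl
  refine ⟨[N, ss r, uu r, aa r] :: h1 :: h2 :: h3 :: h4 :: l, ?_, rfl, rfl, rfl, rfl, ?_⟩
  · rw [verW_iff hG]
    have hd : ([N, ss r, uu r, aa r] :: h1 :: h2 :: h3 :: h4 :: l).drop 5 = l := rfl
    rw [hd, hl]
    exact ⟨hc, mk3_eq r, hN, hl1, hv1, ha1, hv3, ha3, hl2, hv2, ha2⟩
  · rw [length_cd]
    have hrn : r ≤ n := (sN_strictMono hG).id_le r
    have hsr := ss_le r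
    have hur := uu_le r
    have har : aa r ≤ r := Nat.unpair_left_le r
    have hnτ := hG.2 n
    have e1 : sz ([N, ss r, uu r, aa r] :: h1 :: h2 :: h3 :: h4 :: l) =
        1 + (1 + (2 * N + 1) + (1 + (2 * ss r + 1) + (1 + (2 * uu r + 1) +
          (1 + (2 * aa r + 1) + 1)))) +
        (1 + sz h1 + (1 + sz h2 + (1 + sz h3 + (1 + sz h4 + sz l)))) := by
      simp only [sz_cons, sz_nil, sz_nat]
    have e2 : sz h1 ≤ 1 + n * (2 * C.nr + 2) :=
      (sz_hist_le (Desc.lt_of_valid hv1)).trans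
        (Nat.add_le_add_left (Nat.mul_le_mul_right _ hl1) _)
    have e3 : (dd (ss r)).nr ≤ R.eval (2 * n + 1) := by
      have h3 := hR (ss r)
      have h4 : (dd (ss r)).length ≤ sz (dd (ss r)) := length_le_sz _
      have h5 : R.eval (sz (ss r)) ≤ R.eval (2 * n + 1) := eval_mono R (by rw [sz_nat]; omega)
      have h6 : (dd (ss r)).nr = (dd (ss r)).length - 1 := rfl
      omega
    have e4 : sz h2 ≤ 1 + τ n ^ kk (ss r) * (2 * R.eval (2 * n + 1) + 2) := by
      refine (sz_hist_le (Desc.lt_of_valid hv2)).trans (Nat.add_le_add_left ?_ _)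
      exact Nat.mul_le_mul hl2 (by omega)
    have e4' : sz h3 ≤ 1 + τ n * (2 * G.nr + 2) := by
      refine (sz_hist_le (Desc.lt_of_valid hv3)).trans (Nat.add_le_add_left ?_ _)
      rw [hl3]
    have e4b : sz h4 ≤ 1 + n * (2 * b + 2) :=
      (sz_hist_le hb4).trans (Nat.add_le_add_left (Nat.mul_le_mul_right _ hl4) _)
    have e4'' : sz l ≤ 1 + r * (1 + (1 + n * (2 * G.nr + 2))) := by
      rw [← hl]
      refine sz_list_le l _ fun x hxm => ?_
      obtain ⟨hx1, hx2⟩ := hx x hxm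
      exact (sz_hist_le hx2).trans (Nat.add_le_add_left (Nat.mul_le_mul_right _ hx1) _)
    set X := τ n + τ n ^ kk (ss r) with hX
    have e5 : n * (2 * C.nr + 2) ≤ X * (2 * C.nr + 2) := Nat.mul_le_mul_right _ (by omega)
    have e5b : n * (2 * b + 2) ≤ X * (2 * b + 2) := Nat.mul_le_mul_right _ (by omega)
    have e6 : τ n ^ kk (ss r) * (2 * R.eval (2 * n + 1) + 2) ≤
        X * (2 * R.eval (2 * X + 1) + 2) := by
      have h7 : R.eval (2 * n + 1) ≤ R.eval (2 * X + 1) := eval_mono R (by omega)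
      exact Nat.mul_le_mul (by omega) (by omega)
    have e7 : τ n * (2 * G.nr + 2) ≤ X * (2 * G.nr + 2) := Nat.mul_le_mul_right _ (by omega)
    have e8 : r * (1 + (1 + n * (2 * G.nr + 2))) ≤ X * (1 + (1 + X * (2 * G.nr + 2))) := by
      have h7 : n * (2 * G.nr + 2) ≤ X * (2 * G.nr + 2) := Nat.mul_le_mul_right _ (by omega)
      exact Nat.mul_le_mul (by omega) (by omega)
    simp only [Polynomial.eval_add, Polynomial.eval_mul, Polynomial.eval_ofNat,
      Polynomial.eval_one, Polynomial.eval_X, Polynomial.eval_C, Polynomial.eval_comp]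
    rw [e1]
    omega

omit hG in
theorem verWB_cd (n : ℕ) (c : List (List ℕ)) : verWB C G (n, cd c) = verW C G n c := by
  unfold verWB
  have h0 : decLL (parse (cd c)) = c := by
    rw [parse_cd, decLL_enc]
  show verW C G n (decLL (parse (cd c))) = _
  rw [h0]

omit hG in
theorem verXB_cd (E : Desc) (x a n : ℕ) (c : List (List ℕ)) :
    verXB C G E x a (n, cd c) = verX C G E x a n c := by
  unfold verXB
  have h0 : decLL (parse (cd c)) = c := by
    rw [parse_cd, decLL_enc]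
  show verX C G E x a n (decLL (parse (cd c))) = _
  rw [h0]

theorem exists_certW : ∃ Q : Polynomial ℕ, ∀ r, WV C τ r →
    ∃ y, verWB C G (sN τ r, y) = true ∧
      y.length ≤ Q.eval (τ (sN τ r) + τ (sN τ r) ^ kk (ss r)) := by
  obtain ⟨Q, hQ⟩ := exists_cert hG C 0
  refine ⟨Q, fun r hr => ?_⟩
  obtain ⟨c, h1, -, -, -, -, h2⟩ := hQ r [] hr (Nat.zero_le _) (by simp)
  exact ⟨cd c, by rw [verWB_cd, h1], h2⟩

theorem exists_verWB_iff (n : ℕ) :
    (∃ y, verWB C G (n, y) = true) ↔ ∃ r, sN τ r = n ∧ WV C τ r := by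
  constructor
  · rintro ⟨y, hy⟩
    obtain ⟨r, h1, h2, -⟩ := of_verW hG C hy
    exact ⟨r, h1, h2⟩
  · rintro ⟨r, rfl, hr⟩
    obtain ⟨Q, hQ⟩ := exists_certW hG C
    obtain ⟨y, hy, -⟩ := hQ r hr
    exact ⟨y, hy⟩

theorem exists_certX (E : Desc) (x a : ℕ) : ∃ Q : Polynomial ℕ, ∀ r, aa r = a → EV E x r →
    WV C τ r → ∃ y, verXB C G E x a (sN τ r, y) = true ∧
      y.length ≤ Q.eval (τ (sN τ r) + τ (sN τ r) ^ kk (ss r)) := by
  obtain ⟨Q, hQ⟩ := exists_cert hG C E.nr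
  refine ⟨Q, fun r ha hE hr => ?_⟩
  obtain ⟨h4, hl4, hv4, ha4⟩ := hE
  have hrn : r ≤ sN τ r := (sN_strictMono hG).id_le r
  have hur := uu_le r
  obtain ⟨c, h1, h2, h3, h5, h6, h7⟩ := hQ r h4 hr (by omega) (Desc.lt_of_valid hv4)
  refine ⟨cd c, ?_, h7⟩
  rw [verXB_cd]
  unfold verX
  simp only [Bool.and_eq_true, decide_eq_true_eq]
  unfold inp at hv4
  rw [h2, h3, h5, h6, ← ha]
  exact ⟨h1, rfl, hl4, hv4, ha4⟩

theorem exists_verXB_iff (E : Desc) (x a n : ℕ) :
    (∃ y, verXB C G E x a (n, y) = true) ↔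
      ∃ r, sN τ r = n ∧ aa r = a ∧ EV E x r ∧ WV C τ r := by
  constructor
  · rintro ⟨y, hy⟩
    unfold verXB verX at hy
    simp only [Bool.and_eq_true, decide_eq_true_eq] at hy
    obtain ⟨h1, h2, h3, h4, h5⟩ := hy
    obtain ⟨r, h6, h7, h8, h9, h10⟩ := of_verW hG C h1
    refine ⟨r, h6, by rw [h8, h2], ⟨_, by rw [h3, h10], ?_, h5⟩, h7⟩
    unfold inp
    rw [h8, h2, h9]
    exact h4
  · rintro ⟨r, rfl, h1, h2, h3⟩
    obtain ⟨Q, hQ⟩ := exists_certX hG C E x a
    obtain ⟨y, hy, -⟩ := hQ r h1 h2 h3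
    exact ⟨y, hy⟩

end Spec

end Pool.Agent.H27.LD
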